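import Pool.Agent.H.MP_ad013a_pr.h63.Core

/-!
# Adaptive reading: states, transitions and the lower bound theorem

A site is a pair (particle, letter). A side is a list of sites, nearest to the corner first.
-/

namespace Pool.Agent.ad013a

open Finset Filter Topology

/-- a site: `(true, c)` is a particle with letter `c`, `(false, c)` a hole with letter `c` -/
abbrev Site := Bool × Bool

/-- `SInv o s u L`: the words `u.drop k` (most recent letter first) have with `o` a common
subsequence of length at least `L` minus the number of particles among the first `k` sites -/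
def SInv (o : List Bool) : List Site → List Bool → ℤ → Prop
  | [], u, L => L ≤ (LCS u o : ℤ)
  | _ :: _, [], _ => False
  | s :: t, c :: u, L => L ≤ (LCS (c :: u) o : ℤ) ∧ s.2 = c ∧
      SInv o t u (L - (s.1.toNat : ℤ))

theorem SInv_head {o : List Bool} {s : List Site} {u : List Bool} {L : ℤ}
    (h : SInv o s u L) : L ≤ (LCS u o : ℤ) := by
  cases s with
  | nil => exact h
  | cons s t =>
    cases u with
    | nil => exact h.elim
    | cons c u => exact h.1

theorem SInv_prefix {o : List Bool} {s s' : List Site} {u : List Bool} {L : ℤ}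
    (hp : s' <+: s) (h : SInv o s u L) : SInv o s' u L := by
  induction s' generalizing s u L with
  | nil => exact SInv_head h
  | cons a s' ih =>
    obtain ⟨r, rfl⟩ := hp
    cases u with
    | nil => exact h.elim
    | cons c u =>
      refine ⟨h.1, h.2.1, ?_⟩
      exact ih (s := s' ++ r) ⟨r, rfl⟩ h.2.2

/-- one step of the carrier: `v` is the carrier coming from the far side -/
def stp (a : Bool) (v : Bool) (s : Site) : Site × Bool :=
  if v then (if s.1 then ((false, s.2), false) else (s, true))
  else (if s.1 = false ∧ s.2 = a then ((true, s.2), true) else (s, false))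

/-- the carrier passes through a side, from the far end to the near end -/
def pass (a : Bool) : List Site → List Site × Bool
  | [] => ([], false)
  | s :: t => ((stp a (pass a t).2 s).1 :: (pass a t).1, (stp a (pass a t).2 s).2)

theorem LCS_cons_left_ge (c : Bool) (x y : List Bool) : (LCS x y : ℤ) ≤ LCS (c :: x) y := by
  exact_mod_cast LCS_mono (List.sublist_cons_self c x) (List.Sublist.refl y)

theorem LCS_cons_right_ge (c : Bool) (x y : List Bool) : (LCS x y : ℤ) ≤ LCS x (c :: y) := by
  exact_mod_cast LCS_mono (List.Sublist.refl x) (List.sublist_cons_self c y)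

theorem LCS_cons_cons_ge (c : Bool) (x y : List Bool) :
    (LCS x y : ℤ) + 1 ≤ LCS (c :: x) (c :: y) := by
  exact_mod_cast LCS_cons c x y

theorem SInv_pass {o : List Bool} (a : Bool) {s : List Site} {u : List Bool} {L : ℤ}
    (h : SInv o s u L) :
    SInv (a :: o) (pass a s).1 u (L + ((pass a s).2.toNat : ℤ)) := by
  induction s generalizing u L with
  | nil =>
    have h' : L ≤ (LCS u o : ℤ) := h
    simp only [pass, SInv]
    have := LCS_cons_right_ge a u o
    simp; omega
  | cons s t ih =>
    cases u with
    | nil => exact h.elim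
    | cons c u =>
      obtain ⟨h1, h2, h3⟩ := h
      have ih' := ih h3
      have hh := SInv_head ih'
      have h3' := SInv_head h3
      have m1 := LCS_cons_right_ge a (c :: u) o
      have m2 := LCS_cons_left_ge c u (a :: o)
      have m3 := LCS_cons_cons_ge c u o
      obtain ⟨s1, s2⟩ := s
      simp only at h2
      subst h2
      simp only [pass]
      clear ih
      rcases hpt : pass a t with ⟨t', v⟩
      rw [hpt] at ih' hh
      simp only at ih' hh h3' h3
      cases v <;> cases s1 <;> simp [stp] at ih' hh h3' ⊢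
      · by_cases hs : s2 = a
        · subst hs
          simp [SInv]
          exact ⟨by omega, ih'⟩
        · simp [hs, SInv]
          exact ⟨by omega, ih'⟩
      · exact ⟨by omega, rfl, by simpa using ih'⟩
      · exact ⟨by omega, rfl, by simpa using ih'⟩
      · exact ⟨by omega, rfl, by simpa using ih'⟩

/-- complement of the letters of a side -/
def flp (s : List Site) : List Site := s.map (fun x => (x.1, !x.2))

theorem SInv_flp {o : List Bool} {s : List Site} {u : List Bool} {L : ℤ}
    (h : SInv o s u L) : SInv (o.map not) (flp s) (u.map not) L := by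
  induction s generalizing u L with
  | nil =>
    have h' : L ≤ (LCS u o : ℤ) := h
    simp only [flp, List.map_nil, SInv, LCS_map]
    exact h'
  | cons s t ih =>
    cases u with
    | nil => exact h.elim
    | cons c u =>
      obtain ⟨h1, h2, h3⟩ := h
      refine ⟨?_, by simp [h2], ih h3⟩
      rw [← List.map_cons, LCS_map]
      exact h1

/-- the side of the first word after the letter `a` has been read in the first word -/
def nx (a : Bool) (sx sy : List Site) : List Site := ((pass a sy).2, a) :: sx

/-- the side of the second word after the letter `a` has been read in the first word -/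
def ny (a : Bool) (sy : List Site) : List Site := (pass a sy).1

/-- the sides `sx`, `sy` describe the words `u`, `w` -/
def Cmp (sx sy : List Site) (u w : List Bool) (L : ℤ) : Prop :=
  SInv w sx u L ∧ SInv u sy w L

theorem Cmp_step {sx sy : List Site} {u w : List Bool} {L : ℤ} (a : Bool)
    (h : Cmp sx sy u w L) :
    Cmp (nx a sx sy) (ny a sy) (a :: u) w (L + ((pass a sy).2.toNat : ℤ)) := by
  have h2 := SInv_pass a h.2
  refine ⟨⟨?_, rfl, ?_⟩, h2⟩
  · have := SInv_head h2
    rwa [LCS_comm] at this
  · have e : L + ((pass a sy).2.toNat : ℤ) - ((pass a sy).2.toNat : ℤ) = L := by ring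
    simp only [e]
    exact h.1

/-- `(tx, ty)` arises from `(x, y)` by exchanging the words or the letters (the latter only for
`p = 1/2`) and truncating the sides at the far end -/
def Below (p : ℝ) (x y tx ty : List Site) : Prop :=
  ∃ cm : Bool, (cm = true → p = 1 / 2) ∧
    ((tx <+: (bif cm then flp x else x) ∧ ty <+: (bif cm then flp y else y)) ∨
     (tx <+: (bif cm then flp y else y) ∧ ty <+: (bif cm then flp x else x)))

theorem Below_use {p : ℝ} {x y tx ty : List Site} (h : Below p x y tx ty) :
    ∃ sw : Bool, ∀ (u w : List Bool) (L : ℤ), Cmp x y u w L →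
      ∃ u' w' : List Bool, Cmp tx ty u' w' L ∧
        ∀ a b : ℕ, G p u w a b = bif sw then G p u' w' b a else G p u' w' a b := by
  obtain ⟨cm, hcm, h⟩ := h
  rcases h with h | h
  · refine ⟨false, fun u w L hc => ?_⟩
    cases cm with
    | false =>
      exact ⟨u, w, ⟨SInv_prefix h.1 hc.1, SInv_prefix h.2 hc.2⟩, fun a b => rfl⟩
    | true =>
      refine ⟨u.map not, w.map not, ⟨SInv_prefix h.1 (SInv_flp hc.1),
        SInv_prefix h.2 (SInv_flp hc.2)⟩, fun a b => ?_⟩
      simp only [cond_false]
      rw [G_not (hcm rfl)]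
  · refine ⟨true, fun u w L hc => ?_⟩
    cases cm with
    | false =>
      refine ⟨w, u, ⟨SInv_prefix h.1 hc.2, SInv_prefix h.2 hc.1⟩, fun a b => ?_⟩
      simp only [cond_true]
      rw [G_comm]
    | true =>
      refine ⟨w.map not, u.map not, ⟨SInv_prefix h.1 (SInv_flp hc.2),
        SInv_prefix h.2 (SInv_flp hc.1)⟩, fun a b => ?_⟩
      simp only [cond_true]
      rw [G_not (hcm rfl), G_comm]

/-- the set `S` of triples (side, side, value) satisfies the linear inequality of the problem of
dynamic programming, with gain `r` per letter -/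
def Bell (p r : ℝ) (S : List Site → List Site → ℝ → Prop) : Prop :=
  ∀ sx sy v, S sx sy v → ∃ w : Bool → ℝ,
    (∀ a, ∃ tx ty, S tx ty (w a) ∧ Below p (nx a sx sy) (ny a sy) tx ty) ∧
    v + r ≤ (1 - p) * (((pass false sy).2.toNat : ℝ) + w false) +
      p * (((pass true sy).2.toNat : ℝ) + w true)

theorem claim {p r M ρ ε c : ℝ} (h0 : 0 ≤ p) (h1 : p ≤ 1) (hε : 0 ≤ ε)
    {S : List Site → List Site → ℝ → Prop} (hB : Bell p r S)
    (hM : ∀ sx sy v, S sx sy v → v ≤ M) (N : ℕ)
    (hF : ∀ a b : ℕ, a + b < N →
      ρ * ((a : ℝ) + b) - ε * ((a : ℝ) - b) ^ 2 - c ≤ G p [] [] a b) (t : ℕ) :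
    ∀ sx sy v, S sx sy v → ∃ D : ℝ, |D| ≤ t ∧
      ∀ (u w : List Bool) (L : ℤ), Cmp sx sy u w L → ∀ a b : ℕ, t ≤ a → t ≤ b → a + b < N + t →
        L + v - M + r * t + ρ * ((a : ℝ) + b - t) - ε * ((a : ℝ) - b) ^ 2
          + 2 * ε * ((a : ℝ) - b) * D - ε * (t : ℝ) ^ 2 - c ≤ G p u w a b := by
  induction t with
  | zero =>
    intro sx sy v hS
    refine ⟨0, by simp, fun u w L hc a b _ _ hab => ?_⟩
    have e1 := hF a b (by omega)
    have e2 := G_ge h0 h1 u w a b
    have e3 : (L : ℝ) ≤ (LCS u w : ℝ) := by exact_mod_cast SInv_head hc.1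
    have e4 := hM _ _ _ hS
    simp only [Nat.cast_zero]
    linarith
  | succ t ih =>
    intro sx sy v hS
    obtain ⟨w, hw, hv⟩ := hB _ _ _ hS
    -- data for one letter
    have key : ∀ x : Bool, ∃ D : ℝ, |D| ≤ t ∧
        ∀ (u z : List Bool) (L : ℤ), Cmp sx sy u z L → ∀ a b : ℕ, t ≤ a → t ≤ b →
          a + b < N + t →
          L + ((pass x sy).2.toNat : ℝ) + w x - M + r * t + ρ * ((a : ℝ) + b - t)
            - ε * ((a : ℝ) - b) ^ 2 + 2 * ε * ((a : ℝ) - b) * D - ε * (t : ℝ) ^ 2 - c
            ≤ G p (x :: u) z a b := by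
      intro x
      obtain ⟨tx, ty, hT, hb⟩ := hw x
      obtain ⟨D, hD, hD'⟩ := ih _ _ _ hT
      obtain ⟨sw, hsw⟩ := Below_use hb
      refine ⟨bif sw then -D else D, ?_, fun u z L hc a b ha hb' hab => ?_⟩
      · cases sw <;> simpa using hD
      · obtain ⟨u', z', hc', hG⟩ := hsw _ _ _ (Cmp_step x hc)
        rw [hG]
        cases sw with
        | false =>
          have := hD' _ _ _ hc' a b ha hb' hab
          simp only [cond_false]
          push_cast at this ⊢
          linarith
        | true =>
          have := hD' _ _ _ hc' b a hb' ha (by omega)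
          simp only [cond_true]
          push_cast at this ⊢
          nlinarith
    obtain ⟨D0, hD0, k0⟩ := key false
    obtain ⟨D1, hD1, k1⟩ := key true
    have hq : 0 ≤ 1 - p := by linarith
    have b0 := abs_le.1 hD0
    have b1 := abs_le.1 hD1
    refine ⟨1 + ((1 - p) * D0 + p * D1), ?_, fun u z L hc a b ha hb hab => ?_⟩
    · push_cast
      rw [abs_le]
      constructor <;> nlinarith
    · obtain ⟨a, rfl⟩ : ∃ a', a = a' + 1 := ⟨a - 1, by omega⟩
      rw [G_succ]
      have i0 := k0 u z L hc a b (by omega) (by omega) (by omega)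
      have i1 := k1 u z L hc a b (by omega) (by omega) (by omega)
      have j := add_le_add (mul_le_mul_of_nonneg_left i0 hq) (mul_le_mul_of_nonneg_left i1 h0)
      refine le_trans ?_ j
      have hDb : -(t : ℝ) ≤ (1 - p) * D0 + p * D1 := by nlinarith
      have hDb' : (1 - p) * D0 + p * D1 ≤ (t : ℝ) := by nlinarith
      have hm := mul_le_mul_of_nonneg_left hDb' hε
      push_cast
      set DD := (1 - p) * D0 + p * D1 with hDD
      have id1 : (1 - p) * ((L : ℝ) + ((pass false sy).2.toNat : ℝ) + w false - M + r * t
            + ρ * ((a : ℝ) + b - t)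
            - ε * ((a : ℝ) - b) ^ 2 + 2 * ε * ((a : ℝ) - b) * D0 - ε * (t : ℝ) ^ 2 - c) +
          p * ((L : ℝ) + ((pass true sy).2.toNat : ℝ) + w true - M + r * t
            + ρ * ((a : ℝ) + b - t)
            - ε * ((a : ℝ) - b) ^ 2 + 2 * ε * ((a : ℝ) - b) * D1 - ε * (t : ℝ) ^ 2 - c) =
          (L : ℝ) + ((1 - p) * (((pass false sy).2.toNat : ℝ) + w false) +
            p * (((pass true sy).2.toNat : ℝ) + w true)) - M + r * t + ρ * ((a : ℝ) + b - t)
            - ε * ((a : ℝ) - b) ^ 2 + 2 * ε * ((a : ℝ) - b) * DD - ε * (t : ℝ) ^ 2 - c := by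
        rw [hDD]; ring
      rw [id1]
      nlinarith

end Pool.Agent.ad013a
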