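import Mathlib

/-!
# Longest common subsequences of random binary words

Definitions, the expectation operator `E1`, and elementary properties.
-/

namespace Pool.Agent.ad013a

open Finset Filter Topology

/-! ## The length of a longest common subsequence -/

/-- the length of a longest common subsequence of two binary words -/
noncomputable def LCS (x y : List Bool) : ℕ :=
  sSup {k | ∃ w : List Bool, w.Sublist x ∧ w.Sublist y ∧ w.length = k}

/-- probability of a letter: `true` (the letter 1) has probability `p` -/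
def wt (p : ℝ) : Bool → ℝ
  | true => p
  | false => 1 - p

@[simp] theorem wt_true (p : ℝ) : wt p true = p := rfl

@[simp] theorem wt_false (p : ℝ) : wt p false = 1 - p := rfl

/-- expectation of the length of a longest common subsequence of two independent words of
`n` independent letters, each letter being 1 with probability `p` -/
noncomputable def EL (p : ℝ) (n : ℕ) : ℝ :=
  ∑ x : Fin n → Bool, ∑ y : Fin n → Bool,
    (∏ i, wt p (x i)) * (∏ i, wt p (y i)) * (LCS (List.ofFn x) (List.ofFn y) : ℝ)

theorem LCS_bdd (x y : List Bool) :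
    BddAbove {k | ∃ w : List Bool, w.Sublist x ∧ w.Sublist y ∧ w.length = k} := by
  refine ⟨x.length, ?_⟩
  rintro k ⟨w, h1, -, rfl⟩
  exact h1.length_le

theorem LCS_spec (x y : List Bool) :
    ∃ w : List Bool, w.Sublist x ∧ w.Sublist y ∧ w.length = LCS x y := by
  have h := Nat.sSup_mem (s := {k | ∃ w : List Bool, w.Sublist x ∧ w.Sublist y ∧ w.length = k})
    ⟨0, [], List.nil_sublist _, List.nil_sublist _, rfl⟩ (LCS_bdd x y)
  exact h

theorem le_LCS {w x y : List Bool} (h1 : w.Sublist x) (h2 : w.Sublist y) :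
    w.length ≤ LCS x y :=
  le_csSup (LCS_bdd x y) ⟨w, h1, h2, rfl⟩

theorem LCS_mono {x y x' y' : List Bool} (hx : x.Sublist x') (hy : y.Sublist y') :
    LCS x y ≤ LCS x' y' := by
  obtain ⟨w, h1, h2, h3⟩ := LCS_spec x y
  rw [← h3]
  exact le_LCS (h1.trans hx) (h2.trans hy)

theorem LCS_comm (x y : List Bool) : LCS x y = LCS y x := by
  apply le_antisymm
  · obtain ⟨w, h1, h2, h3⟩ := LCS_spec x y
    rw [← h3]; exact le_LCS h2 h1
  · obtain ⟨w, h1, h2, h3⟩ := LCS_spec y x
    rw [← h3]; exact le_LCS h2 h1

theorem LCS_add (u v x y : List Bool) : LCS u v + LCS x y ≤ LCS (u ++ x) (v ++ y) := by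
  obtain ⟨w, h1, h2, h3⟩ := LCS_spec u v
  obtain ⟨w', h1', h2', h3'⟩ := LCS_spec x y
  rw [← h3, ← h3', ← List.length_append]
  exact le_LCS (h1.append h1') (h2.append h2')

theorem LCS_cons (c : Bool) (x y : List Bool) : LCS x y + 1 ≤ LCS (c :: x) (c :: y) := by
  obtain ⟨w, h1, h2, h3⟩ := LCS_spec x y
  rw [← h3]
  exact le_LCS (List.cons_sublist_cons.2 h1) (List.cons_sublist_cons.2 h2)

theorem LCS_le_length (x y : List Bool) : LCS x y ≤ x.length := by
  obtain ⟨w, h1, -, h3⟩ := LCS_spec x y
  rw [← h3]; exact h1.length_le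

theorem LCS_le_reverse (x y : List Bool) : LCS x y ≤ LCS x.reverse y.reverse := by
  obtain ⟨w, h1, h2, h3⟩ := LCS_spec x y
  rw [← h3, ← List.length_reverse]
  exact le_LCS (List.reverse_sublist.2 h1) (List.reverse_sublist.2 h2)

theorem LCS_reverse (x y : List Bool) : LCS x.reverse y.reverse = LCS x y := by
  apply le_antisymm
  · have := LCS_le_reverse x.reverse y.reverse
    simpa using this
  · exact LCS_le_reverse x y

theorem LCS_le_map (x y : List Bool) : LCS x y ≤ LCS (x.map not) (y.map not) := by
  obtain ⟨w, h1, h2, h3⟩ := LCS_spec x y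
  rw [← h3, ← List.length_map (f := not)]
  exact le_LCS (h1.map _) (h2.map _)

theorem LCS_map (x y : List Bool) : LCS (x.map not) (y.map not) = LCS x y := by
  apply le_antisymm
  · have := LCS_le_map (x.map not) (y.map not)
    simpa [List.map_map, Function.comp_def] using this
  · exact LCS_le_map x y

/-! ## The expectation operator -/

/-- expectation of `f w`, `w` a word of `n` independent letters -/
def E1 (p : ℝ) : ℕ → (List Bool → ℝ) → ℝ
  | 0, f => f []
  | n + 1, f => (1 - p) * E1 p n (fun w => f (false :: w)) + p * E1 p n (fun w => f (true :: w))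

theorem E1_mono {p : ℝ} (h0 : 0 ≤ p) (h1 : p ≤ 1) (n : ℕ) {f g : List Bool → ℝ}
    (h : ∀ w, w.length = n → f w ≤ g w) : E1 p n f ≤ E1 p n g := by
  induction n generalizing f g with
  | zero => exact h [] rfl
  | succ n ih =>
    simp only [E1]
    have a := ih (f := fun w => f (false :: w)) (g := fun w => g (false :: w))
      (fun w hw => h _ (by simp [hw]))
    have b := ih (f := fun w => f (true :: w)) (g := fun w => g (true :: w))
      (fun w hw => h _ (by simp [hw]))
    have h1' : 0 ≤ 1 - p := by linarith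
    nlinarith [mul_le_mul_of_nonneg_left a h1', mul_le_mul_of_nonneg_left b h0]

theorem E1_lin (p : ℝ) (n : ℕ) (a b : ℝ) (f g : List Bool → ℝ) :
    E1 p n (fun w => a * f w + b * g w) = a * E1 p n f + b * E1 p n g := by
  induction n generalizing f g with
  | zero => rfl
  | succ n ih =>
    simp only [E1]
    rw [ih, ih]; ring

theorem E1_const (p : ℝ) (n : ℕ) (c : ℝ) : E1 p n (fun _ => c) = c := by
  induction n with
  | zero => rfl
  | succ n ih => simp only [E1]; rw [ih]; ring

theorem E1_const_add (p : ℝ) (n : ℕ) (c : ℝ) (f : List Bool → ℝ) :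
    E1 p n (fun w => c + f w) = c + E1 p n f := by
  have := E1_lin p n 1 1 (fun _ => c) f
  simpa [E1_const] using this

theorem E1_comm (p : ℝ) (m n : ℕ) (f : List Bool → List Bool → ℝ) :
    E1 p m (fun x => E1 p n (fun y => f x y)) = E1 p n (fun y => E1 p m (fun x => f x y)) := by
  induction m generalizing f with
  | zero => rfl
  | succ m ih =>
    simp only [E1]
    rw [ih, ih, ← E1_lin]

theorem E1_half_not (n : ℕ) (f : List Bool → ℝ) :
    E1 (1 / 2) n (fun w => f (w.map not)) = E1 (1 / 2) n f := by
  induction n generalizing f with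
  | zero => rfl
  | succ n ih =>
    simp only [E1, List.map_cons, Bool.not_false, Bool.not_true]
    rw [ih (fun w => f (true :: w)), ih (fun w => f (false :: w))]
    ring

theorem E1_congr (p : ℝ) (n : ℕ) {f g : List Bool → ℝ}
    (h : ∀ w, w.length = n → f w = g w) : E1 p n f = E1 p n g := by
  induction n generalizing f g with
  | zero => exact h [] rfl
  | succ n ih =>
    simp only [E1]
    rw [ih (f := fun w => f (false :: w)) (g := fun w => g (false :: w))
      (fun w hw => h _ (by simp [hw])),
      ih (f := fun w => f (true :: w)) (g := fun w => g (true :: w))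
      (fun w hw => h _ (by simp [hw]))]

theorem sum_eq_E1 (p : ℝ) (n : ℕ) (f : List Bool → ℝ) :
    ∑ x : Fin n → Bool, (∏ i, wt p (x i)) * f (List.ofFn x) = E1 p n f := by
  induction n generalizing f with
  | zero => simp [E1]
  | succ n ih =>
    rw [← (Fin.consEquiv (fun _ : Fin (n + 1) => Bool)).sum_comp, Fintype.sum_prod_type]
    simp only [Fin.consEquiv_apply, Fin.prod_univ_succ, Fin.cons_zero, Fin.cons_succ,
      List.ofFn_succ, Fintype.sum_bool, E1, wt_true, wt_false]
    rw [← ih (fun w => f (true :: w)), ← ih (fun w => f (false :: w)), Finset.mul_sum,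
      Finset.mul_sum, add_comm]
    congr 1 <;> exact Finset.sum_congr rfl (fun x _ => by ring)

theorem EL_eq (p : ℝ) (n : ℕ) :
    EL p n = E1 p n (fun x => E1 p n (fun y => (LCS x y : ℝ))) := by
  rw [EL, ← sum_eq_E1]
  refine Finset.sum_congr rfl (fun x _ => ?_)
  rw [← sum_eq_E1, Finset.mul_sum]
  exact Finset.sum_congr rfl (fun y _ => by ring)

/-! ## Expectations given the letters already read -/

/-- expectation of the length of a longest common subsequence if the letters `u` and `v` (most
recent letter first) have been read and `a` and `b` letters remain -/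
noncomputable def G (p : ℝ) (u v : List Bool) (a b : ℕ) : ℝ :=
  E1 p a (fun x => E1 p b (fun y => (LCS (u.reverse ++ x) (v.reverse ++ y) : ℝ)))

theorem EL_eq_G (p : ℝ) (n : ℕ) : EL p n = G p [] [] n n := by
  rw [EL_eq]; rfl

theorem G_comm (p : ℝ) (u v : List Bool) (a b : ℕ) : G p u v a b = G p v u b a := by
  unfold G
  rw [E1_comm]
  simp only [LCS_comm]

theorem G_succ (p : ℝ) (u v : List Bool) (a b : ℕ) :
    G p u v (a + 1) b = (1 - p) * G p (false :: u) v a b + p * G p (true :: u) v a b := by
  unfold G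
  simp only [E1, List.reverse_cons, List.append_assoc, List.singleton_append]

theorem G_not {p : ℝ} (hp : p = 1 / 2) (u v : List Bool) (a b : ℕ) :
    G p (u.map not) (v.map not) a b = G p u v a b := by
  subst hp
  unfold G
  rw [← E1_half_not a]
  refine E1_congr _ _ (fun x _ => ?_)
  rw [← E1_half_not b]
  refine E1_congr _ _ (fun y _ => ?_)
  rw [← List.map_reverse, ← List.map_reverse, ← List.map_append, ← List.map_append, LCS_map]

theorem G_ge {p : ℝ} (h0 : 0 ≤ p) (h1 : p ≤ 1) (u v : List Bool) (a b : ℕ) :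
    (LCS u v : ℝ) + G p [] [] a b ≤ G p u v a b := by
  unfold G
  rw [← E1_const_add]
  refine E1_mono h0 h1 _ (fun x _ => ?_)
  rw [← E1_const_add]
  refine E1_mono h0 h1 _ (fun y _ => ?_)
  have := LCS_add u.reverse v.reverse x y
  rw [LCS_reverse] at this
  simp only [List.reverse_nil, List.nil_append]
  exact_mod_cast this

theorem G_nonneg {p : ℝ} (h0 : 0 ≤ p) (h1 : p ≤ 1) (u v : List Bool) (a b : ℕ) :
    0 ≤ G p u v a b := by
  unfold G
  have h : E1 p a (fun _ => (0 : ℝ)) ≤ E1 p a
      (fun x => E1 p b (fun y => (LCS (u.reverse ++ x) (v.reverse ++ y) : ℝ))) := by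
    refine E1_mono h0 h1 _ (fun x _ => ?_)
    have h' : E1 p b (fun _ => (0 : ℝ)) ≤ E1 p b
      (fun y => (LCS (u.reverse ++ x) (v.reverse ++ y) : ℝ)) :=
      E1_mono h0 h1 _ (fun y _ => by positivity)
    rwa [E1_const] at h'
  rwa [E1_const] at h

theorem E1_append (p : ℝ) (a c : ℕ) (f : List Bool → ℝ) :
    E1 p (a + c) f = E1 p a (fun x => E1 p c (fun x' => f (x ++ x'))) := by
  induction a generalizing f with
  | zero => simp [E1]
  | succ a ih =>
    rw [Nat.add_right_comm]
    simp only [E1]
    rw [ih, ih]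
    simp only [List.cons_append]

/-- superadditivity -/
theorem G_add {p : ℝ} (h0 : 0 ≤ p) (h1 : p ≤ 1) (a b c d : ℕ) :
    G p [] [] a b + G p [] [] c d ≤ G p [] [] (a + c) (b + d) := by
  unfold G
  simp only [List.reverse_nil, List.nil_append]
  rw [E1_append]
  have e : ∀ x : List Bool,
      E1 p c (fun x' => E1 p (b + d) (fun y => (LCS (x ++ x') y : ℝ))) =
      E1 p b (fun y => E1 p c (fun x' => E1 p d (fun y' => (LCS (x ++ x') (y ++ y') : ℝ)))) := by
    intro x
    have e1 : E1 p c (fun x' => E1 p (b + d) (fun y => (LCS (x ++ x') y : ℝ))) =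
        E1 p c (fun x' => E1 p b (fun y => E1 p d (fun y' => (LCS (x ++ x') (y ++ y') : ℝ)))) :=
      E1_congr _ _ (fun x' _ => E1_append _ _ _ _)
    rw [e1, E1_comm]
  simp only [e]
  rw [add_comm, ← E1_const_add]
  refine E1_mono h0 h1 _ (fun x _ => ?_)
  rw [← E1_const_add]
  refine E1_mono h0 h1 _ (fun y _ => ?_)
  rw [add_comm, ← E1_const_add]
  refine E1_mono h0 h1 _ (fun x' _ => ?_)
  rw [← E1_const_add]
  refine E1_mono h0 h1 _ (fun y' _ => ?_)
  exact_mod_cast LCS_add x y x' y'

end Pool.Agent.ad013a
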