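/-!
# The checker

An entry of a table is a number of 128 bits. It holds two sides `(hx, lx, nx)`, `(hy, ly, ny)`
(the mask of the holes, the mask of the letters and the length), a value `V`, and for each of the
two letters the index `p` of the next entry and two flags `f` (exchange of the words, complement
of the letters). Everything is written with the basic operations on `Nat` and with `Bool.rec`,
which the kernel evaluates quickly.
-/

namespace Pool.Agent.ad013a

/-- the checks `c s`, `c (s + 1)` -/
noncomputable def lp1 (c : Nat → Bool) (s : Nat) : Bool :=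
  Bool.rec (motive := fun _ => Bool) false (c (Nat.add s 1)) (c s)
/-- four checks -/
noncomputable def lp2 (c : Nat → Bool) (s : Nat) : Bool :=
  Bool.rec (motive := fun _ => Bool) false (lp1 c (Nat.add s 2)) (lp1 c s)
/-- eight checks -/
noncomputable def lp3 (c : Nat → Bool) (s : Nat) : Bool :=
  Bool.rec (motive := fun _ => Bool) false (lp2 c (Nat.add s 4)) (lp2 c s)
/-- `2 ^ 4` checks -/
noncomputable def lp4 (c : Nat → Bool) (s : Nat) : Bool :=
  Bool.rec (motive := fun _ => Bool) false (lp3 c (Nat.add s 8)) (lp3 c s)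
/-- `2 ^ 5` checks -/
noncomputable def lp5 (c : Nat → Bool) (s : Nat) : Bool :=
  Bool.rec (motive := fun _ => Bool) false (lp4 c (Nat.add s 16)) (lp4 c s)
/-- `2 ^ 6` checks -/
noncomputable def lp6 (c : Nat → Bool) (s : Nat) : Bool :=
  Bool.rec (motive := fun _ => Bool) false (lp5 c (Nat.add s 32)) (lp5 c s)
/-- `2 ^ 7` checks -/
noncomputable def lp7 (c : Nat → Bool) (s : Nat) : Bool :=
  Bool.rec (motive := fun _ => Bool) false (lp6 c (Nat.add s 64)) (lp6 c s)

/-- entry number `s` in the number `n` -/
noncomputable def ent (n s : Nat) : Nat :=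
  Nat.land (Nat.shiftRight n (Nat.mul 128 s)) 340282366920938463463374607431768211455

/-- field -/
noncomputable def fhx (e : Nat) : Nat := Nat.land e 16383
/-- field -/
noncomputable def flx (e : Nat) : Nat := Nat.land (Nat.shiftRight e 14) 16383
/-- field -/
noncomputable def fnx (e : Nat) : Nat := Nat.land (Nat.shiftRight e 28) 15
/-- field -/
noncomputable def fhy (e : Nat) : Nat := Nat.land (Nat.shiftRight e 32) 16383
/-- field -/
noncomputable def fly (e : Nat) : Nat := Nat.land (Nat.shiftRight e 46) 16383
/-- field -/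
noncomputable def fny (e : Nat) : Nat := Nat.land (Nat.shiftRight e 60) 15
/-- field -/
noncomputable def fv (e : Nat) : Nat := Nat.land (Nat.shiftRight e 64) 1048575

/-- is `(h', l', n')` the side `(h, l, n)`, truncated? -/
noncomputable def chkS (h l n h' l' n' : Nat) : Bool :=
  Bool.rec (motive := fun _ => Bool) false
    ((fun d => Bool.rec (motive := fun _ => Bool) false
      (Nat.beq (Nat.shiftRight l d) l') (Nat.beq (Nat.shiftRight h d) h'))
    (Nat.sub n n'))
  (Nat.ble n' n)

/-- do the sides of the entry `t` arise from `(h1, l1, n1)`, `(h2, l2, n2)` as `c` (complement)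
and `s` (exchange) say? `T1`, `T2` are two to the lengths -/
noncomputable def chkA (c s : Bool) (h1 l1 n1 T1 h2 l2 n2 T2 t : Nat) : Bool :=
  (fun la lb =>
    Bool.rec (motive := fun _ => Bool)
      (Bool.rec (motive := fun _ => Bool) false
        (chkS h2 lb n2 (fhy t) (fly t) (fny t)) (chkS h1 la n1 (fhx t) (flx t) (fnx t)))
      (Bool.rec (motive := fun _ => Bool) false
        (chkS h1 la n1 (fhy t) (fly t) (fny t)) (chkS h2 lb n2 (fhx t) (flx t) (fnx t)))
      s)
    (Bool.rec (motive := fun _ => Nat) l1 (Nat.sub (Nat.sub T1 1) l1) c)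
    (Bool.rec (motive := fun _ => Nat) l2 (Nat.sub (Nat.sub T2 1) l2) c)

/-- check for one letter: `b` is `2 ^ nx` for the letter `1` and `0` for the letter `0` -/
noncomputable def chkL (c s : Bool) (b hx lx nx TX ly ny TY w r t : Nat) : Bool :=
  chkA c s (Nat.add hx (Nat.mul TX (Nat.sub 1 r))) (Nat.add lx b)
    (Nat.succ nx) (Nat.mul 2 TX) (Nat.sub w (Nat.mul TY r)) ly ny TY t

/-- the carrier passes through the holes `h`; `m` is the mask of the sites with the letter -/
noncomputable def car (h m : Nat) : Nat :=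
  (fun u => Nat.lor (Nat.add h u) (Nat.sub h u)) (Nat.land h m)

/-- the inequality of the dynamic program at the parameter `a / N` -/
noncomputable def chkI (N Q ρ a V r0 r1 V0 V1 : Nat) : Bool :=
  Nat.ble (Nat.mul N (Nat.add V ρ))
    (Nat.add (Nat.mul (Nat.sub N a) (Nat.add V0 (Nat.mul r0 Q)))
      (Nat.mul a (Nat.add V1 (Nat.mul r1 Q))))

/-- check of the entry `e`; `g` looks up entries; `cs` says whether complements are allowed -/
noncomputable def chkE (cs : Bool) (N Q ρ a1 a2 : Nat) (g : Nat → Nat) (e : Nat) : Bool :=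
  (fun hx lx nx hy ly ny V f0 f1 t0 t1 =>
    (fun TX TY c0 c1 w0 w1 =>
      (fun r0 r1 =>
        Bool.rec (motive := fun _ => Bool) false
        (Bool.rec (motive := fun _ => Bool) false
        (Bool.rec (motive := fun _ => Bool) false
        (Bool.rec (motive := fun _ => Bool) false
        (Bool.rec (motive := fun _ => Bool) false
          (chkI N Q ρ a2 V r0 r1 (fv t0) (fv t1))
          (chkI N Q ρ a1 V r0 r1 (fv t0) (fv t1)))
          (chkL c1 (Nat.beq (Nat.land f1 1) 1) TX hx lx nx TX ly ny TY w1 r1 t1))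
          (chkL c0 (Nat.beq (Nat.land f0 1) 1) 0 hx lx nx TX ly ny TY w0 r0 t0))
          (Bool.rec (motive := fun _ => Bool) true cs c1))
          (Bool.rec (motive := fun _ => Bool) true cs c0))
      (Nat.shiftRight w0 ny) (Nat.shiftRight w1 ny))
    (Nat.pow 2 nx) (Nat.pow 2 ny) (Nat.ble 2 f0) (Nat.ble 2 f1)
    (car hy (Nat.sub (Nat.sub (Nat.pow 2 ny) 1) ly)) (car hy ly))
  (fhx e) (flx e) (fnx e) (fhy e) (fly e) (fny e) (fv e)
  (Nat.land (Nat.shiftRight e 104) 3) (Nat.land (Nat.shiftRight e 126) 3)
  (g (Nat.land (Nat.shiftRight e 84) 1048575)) (g (Nat.land (Nat.shiftRight e 106) 1048575))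

/-- the start: both sides empty -/
noncomputable def chk0 (e : Nat) : Bool :=
  Bool.rec (motive := fun _ => Bool) false (Nat.beq (fny e) 0) (Nat.beq (fnx e) 0)

end Pool.Agent.ad013a
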