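import Pool.Agent.H.MP_ad013a_pr.h63.Adapt
import Pool.Agent.H.MP_ad013a_pr.h63.K

/-!
# Sides as numbers

Here the sides are lists with the farthest site first.
-/

namespace Pool.Agent.ad013a

/-- mask of the holes -/
def eh : List Site → ℕ
  | [] => 0
  | x :: f => Nat.bit (!x.1) (eh f)

/-- mask of the letters -/
def el : List Site → ℕ
  | [] => 0
  | x :: f => Nat.bit x.2 (el f)

/-- mask of the sites with letter `a` -/
def em (a : Bool) : List Site → ℕ
  | [] => 0
  | x :: f => Nat.bit (x.2 == a) (em a f)

theorem eh_lt (f : List Site) : eh f < 2 ^ f.length := by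
  induction f with
  | nil => simp [eh]
  | cons x f ih =>
    rw [eh, Nat.bit_val, List.length_cons, pow_succ]
    have := Bool.toNat_le (!x.1)
    omega

theorem el_lt (f : List Site) : el f < 2 ^ f.length := by
  induction f with
  | nil => simp [el]
  | cons x f ih =>
    rw [el, Nat.bit_val, List.length_cons, pow_succ]
    have := Bool.toNat_le x.2
    omega

theorem em_true (f : List Site) : em true f = el f := by
  induction f with
  | nil => rfl
  | cons x f ih => rw [em, el, ih]; congr 1; cases x.2 <;> rfl

theorem em_false (f : List Site) : em false f = 2 ^ f.length - 1 - el f := by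
  induction f with
  | nil => rfl
  | cons x f ih =>
    have := el_lt f
    rw [em, el, ih, List.length_cons, pow_succ, Nat.bit_val, Nat.bit_val]
    cases x.2 <;> simp <;> omega

theorem eh_append (f : List Site) (x : Site) :
    eh (f ++ [x]) = eh f + 2 ^ f.length * (!x.1).toNat := by
  induction f with
  | nil => simp [eh, Nat.bit_val]
  | cons y f ih =>
    rw [List.cons_append, eh, eh, ih, Nat.bit_val, Nat.bit_val, List.length_cons, pow_succ]
    ring

theorem el_append (f : List Site) (x : Site) :
    el (f ++ [x]) = el f + 2 ^ f.length * x.2.toNat := by
  induction f with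
  | nil => simp [el, Nat.bit_val]
  | cons y f ih =>
    rw [List.cons_append, el, el, ih, Nat.bit_val, Nat.bit_val, List.length_cons, pow_succ]
    ring

theorem eh_drop (f : List Site) (d : ℕ) : eh (f.drop d) = eh f >>> d := by
  induction d generalizing f with
  | zero => simp
  | succ d ih =>
    cases f with
    | nil => simp [eh]
    | cons x f =>
      rw [List.drop_succ_cons, ih, eh, Nat.shiftRight_succ_inside]
      congr 1
      have := Nat.bit_val (!x.1) (eh f)
      have := Bool.toNat_le (!x.1)
      omega

theorem el_drop (f : List Site) (d : ℕ) : el (f.drop d) = el f >>> d := by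
  induction d generalizing f with
  | zero => simp
  | succ d ih =>
    cases f with
    | nil => simp [el]
    | cons x f =>
      rw [List.drop_succ_cons, ih, el, Nat.shiftRight_succ_inside]
      congr 1
      have := Nat.bit_val x.2 (el f)
      have := Bool.toNat_le x.2
      omega

theorem eh_flp (f : List Site) : eh (flp f) = eh f := by
  induction f with
  | nil => rfl
  | cons x f ih =>
    have : flp (x :: f) = (x.1, !x.2) :: flp f := rfl
    rw [this, eh, eh, ih]

theorem el_flp (f : List Site) : el (flp f) = 2 ^ f.length - 1 - el f := by
  induction f with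
  | nil => rfl
  | cons x f ih =>
    have h : flp (x :: f) = (x.1, !x.2) :: flp f := rfl
    have := el_lt f
    rw [h, el, el, ih, List.length_cons, pow_succ, Nat.bit_val, Nat.bit_val]
    cases x.2 <;> simp <;> omega

theorem flp_length (f : List Site) : (flp f).length = f.length := by simp [flp]

theorem flp_reverse (f : List Site) : flp f.reverse = (flp f).reverse := by
  simp [flp, List.map_reverse]

/-- the carrier passes through a side, far end first, entering with value `v` -/
def passF (a : Bool) : Bool → List Site → List Site × Bool
  | v, [] => ([], v)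
  | v, x :: f => ((stp a v x).1 :: (passF a (stp a v x).2 f).1, (passF a (stp a v x).2 f).2)

theorem passF_length (a : Bool) (f : List Site) (v : Bool) :
    (passF a v f).1.length = f.length := by
  induction f generalizing v with
  | nil => rfl
  | cons x f ih => simp [passF, ih]

/-- the carrier, far end last -/
def passG (a v : Bool) : List Site → List Site × Bool
  | [] => ([], v)
  | s :: t => ((stp a (passG a v t).2 s).1 :: (passG a v t).1, (stp a (passG a v t).2 s).2)

theorem passG_false (a : Bool) (s : List Site) : passG a false s = pass a s := by
  induction s with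
  | nil => rfl
  | cons x t ih => rw [passG, pass, ih]

theorem passG_snoc (a v : Bool) (s : List Site) (x : Site) :
    passG a v (s ++ [x]) =
      ((passG a (stp a v x).2 s).1 ++ [(stp a v x).1], (passG a (stp a v x).2 s).2) := by
  induction s with
  | nil => rfl
  | cons y s ih => rw [List.cons_append, passG, ih, passG]; rfl

theorem passG_reverse (a : Bool) (f : List Site) (v : Bool) :
    passG a v f.reverse = ((passF a v f).1.reverse, (passF a v f).2) := by
  induction f generalizing v with
  | nil => rfl
  | cons x f ih => rw [List.reverse_cons, passG_snoc, ih, passF]; simp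

theorem pass_eq (a : Bool) (s : List Site) :
    pass a s = ((passF a false s.reverse).1.reverse, (passF a false s.reverse).2) := by
  rw [← passG_false, ← passG_reverse, List.reverse_reverse]

theorem carry (a : Bool) (f : List Site) (v : Bool) :
    (eh f + (eh f &&& em a f) + v.toNat) ||| (eh f - (eh f &&& em a f)) =
      eh (passF a v f).1 + 2 ^ f.length * (passF a v f).2.toNat := by
  induction f generalizing v with
  | nil => simp [eh, em, passF]
  | cons x f ih =>
    have hle : eh f &&& em a f ≤ eh f := Nat.and_le_left
    obtain ⟨x1, x2⟩ := x
    have e1 : eh ((x1, x2) :: f) + (eh ((x1, x2) :: f) &&& em a ((x1, x2) :: f)) + v.toNat =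
        Nat.bit (xor (xor (!x1) (!x1 && (x2 == a))) v)
          (eh f + (eh f &&& em a f) + (stp a v (x1, x2)).2.toNat) := by
      rw [eh, em, Nat.land_bit]
      simp only [Nat.bit_val, stp]
      cases x1 <;> cases v <;> cases x2 <;> cases a <;> simp <;> omega
    have e2 : eh ((x1, x2) :: f) - (eh ((x1, x2) :: f) &&& em a ((x1, x2) :: f)) =
        Nat.bit (!x1 && !(x2 == a)) (eh f - (eh f &&& em a f)) := by
      rw [eh, em, Nat.land_bit]
      simp only [Nat.bit_val]
      cases x1 <;> cases x2 <;> cases a <;> simp <;> omega
    rw [e1, e2, Nat.lor_bit, ih, passF, List.length_cons, pow_succ, eh]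
    simp only [Nat.bit_val, stp]
    cases x1 <;> cases v <;> cases x2 <;> cases a <;> simp <;> ring

end Pool.Agent.ad013a
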