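import Pool.Agent.H.MP_ad013a_pr.h63.K

/-!
# The checker, written out

`chkF` is `chkE` with all auxiliary functions written out; the kernel evaluates it more quickly.
-/

set_option maxRecDepth 100000

namespace Pool.Agent.ad013a

/-- `chkE`, written out -/
noncomputable def chkF (cs : Bool) (N Q ρ a1 a2 : Nat) (g : Nat → Nat) (e : Nat) : Bool :=
  (Bool.rec (motive := fun _ => Bool) false (Bool.rec (motive := fun _ => Bool) false (Bool.rec
  (motive := fun _ => Bool) false (Bool.rec (motive := fun _ => Bool) false (Bool.rec (motive :=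
  fun _ => Bool) false (Nat.ble (Nat.mul N (Nat.add (Nat.land (Nat.shiftRight e 64) 1048575) ρ))
  (Nat.add (Nat.mul (Nat.sub N a2) (Nat.add (Nat.land (Nat.shiftRight (g (Nat.land (Nat.shiftRight
  e 84) 1048575)) 64) 1048575) (Nat.mul (Nat.shiftRight (Nat.lor (Nat.add (Nat.land (Nat.shiftRight
  e 32) 16383) (Nat.land (Nat.land (Nat.shiftRight e 32) 16383) (Nat.sub (Nat.sub (Nat.pow 2
  (Nat.land (Nat.shiftRight e 60) 15)) 1) (Nat.land (Nat.shiftRight e 46) 16383)))) (Nat.sub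
  (Nat.land (Nat.shiftRight e 32) 16383) (Nat.land (Nat.land (Nat.shiftRight e 32) 16383) (Nat.sub
  (Nat.sub (Nat.pow 2 (Nat.land (Nat.shiftRight e 60) 15)) 1) (Nat.land (Nat.shiftRight e 46)
  16383))))) (Nat.land (Nat.shiftRight e 60) 15)) Q))) (Nat.mul a2 (Nat.add (Nat.land
  (Nat.shiftRight (g (Nat.land (Nat.shiftRight e 106) 1048575)) 64) 1048575) (Nat.mul
  (Nat.shiftRight (Nat.lor (Nat.add (Nat.land (Nat.shiftRight e 32) 16383) (Nat.land (Nat.land
  (Nat.shiftRight e 32) 16383) (Nat.land (Nat.shiftRight e 46) 16383))) (Nat.sub (Nat.land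
  (Nat.shiftRight e 32) 16383) (Nat.land (Nat.land (Nat.shiftRight e 32) 16383) (Nat.land
  (Nat.shiftRight e 46) 16383)))) (Nat.land (Nat.shiftRight e 60) 15)) Q))))) (Nat.ble (Nat.mul N
  (Nat.add (Nat.land (Nat.shiftRight e 64) 1048575) ρ)) (Nat.add (Nat.mul (Nat.sub N a1) (Nat.add
  (Nat.land (Nat.shiftRight (g (Nat.land (Nat.shiftRight e 84) 1048575)) 64) 1048575) (Nat.mul
  (Nat.shiftRight (Nat.lor (Nat.add (Nat.land (Nat.shiftRight e 32) 16383) (Nat.land (Nat.land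
  (Nat.shiftRight e 32) 16383) (Nat.sub (Nat.sub (Nat.pow 2 (Nat.land (Nat.shiftRight e 60) 15)) 1)
  (Nat.land (Nat.shiftRight e 46) 16383)))) (Nat.sub (Nat.land (Nat.shiftRight e 32) 16383)
  (Nat.land (Nat.land (Nat.shiftRight e 32) 16383) (Nat.sub (Nat.sub (Nat.pow 2 (Nat.land
  (Nat.shiftRight e 60) 15)) 1) (Nat.land (Nat.shiftRight e 46) 16383))))) (Nat.land
  (Nat.shiftRight e 60) 15)) Q))) (Nat.mul a1 (Nat.add (Nat.land (Nat.shiftRight (g (Nat.land
  (Nat.shiftRight e 106) 1048575)) 64) 1048575) (Nat.mul (Nat.shiftRight (Nat.lor (Nat.add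
  (Nat.land (Nat.shiftRight e 32) 16383) (Nat.land (Nat.land (Nat.shiftRight e 32) 16383) (Nat.land
  (Nat.shiftRight e 46) 16383))) (Nat.sub (Nat.land (Nat.shiftRight e 32) 16383) (Nat.land
  (Nat.land (Nat.shiftRight e 32) 16383) (Nat.land (Nat.shiftRight e 46) 16383)))) (Nat.land
  (Nat.shiftRight e 60) 15)) Q)))))) (Bool.rec (motive := fun _ => Bool) (Bool.rec (motive := fun _
  => Bool) false (Bool.rec (motive := fun _ => Bool) false (Bool.rec (motive := fun _ => Bool)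
  false (Nat.beq (Nat.shiftRight (Bool.rec (motive := fun _ => Nat) (Nat.land (Nat.shiftRight e 46)
  16383) (Nat.sub (Nat.sub (Nat.pow 2 (Nat.land (Nat.shiftRight e 60) 15)) 1) (Nat.land
  (Nat.shiftRight e 46) 16383)) (Nat.ble 2 (Nat.land (Nat.shiftRight e 126) 3))) (Nat.sub (Nat.land
  (Nat.shiftRight e 60) 15) (Nat.land (Nat.shiftRight (g (Nat.land (Nat.shiftRight e 106) 1048575))
  60) 15))) (Nat.land (Nat.shiftRight (g (Nat.land (Nat.shiftRight e 106) 1048575)) 46) 16383))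
  (Nat.beq (Nat.shiftRight (Nat.sub (Nat.lor (Nat.add (Nat.land (Nat.shiftRight e 32) 16383)
  (Nat.land (Nat.land (Nat.shiftRight e 32) 16383) (Nat.land (Nat.shiftRight e 46) 16383)))
  (Nat.sub (Nat.land (Nat.shiftRight e 32) 16383) (Nat.land (Nat.land (Nat.shiftRight e 32) 16383)
  (Nat.land (Nat.shiftRight e 46) 16383)))) (Nat.mul (Nat.pow 2 (Nat.land (Nat.shiftRight e 60)
  15)) (Nat.shiftRight (Nat.lor (Nat.add (Nat.land (Nat.shiftRight e 32) 16383) (Nat.land (Nat.land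
  (Nat.shiftRight e 32) 16383) (Nat.land (Nat.shiftRight e 46) 16383))) (Nat.sub (Nat.land
  (Nat.shiftRight e 32) 16383) (Nat.land (Nat.land (Nat.shiftRight e 32) 16383) (Nat.land
  (Nat.shiftRight e 46) 16383)))) (Nat.land (Nat.shiftRight e 60) 15)))) (Nat.sub (Nat.land
  (Nat.shiftRight e 60) 15) (Nat.land (Nat.shiftRight (g (Nat.land (Nat.shiftRight e 106) 1048575))
  60) 15))) (Nat.land (Nat.shiftRight (g (Nat.land (Nat.shiftRight e 106) 1048575)) 32) 16383)))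
  (Nat.ble (Nat.land (Nat.shiftRight (g (Nat.land (Nat.shiftRight e 106) 1048575)) 60) 15)
  (Nat.land (Nat.shiftRight e 60) 15))) (Bool.rec (motive := fun _ => Bool) false (Bool.rec (motive
  := fun _ => Bool) false (Nat.beq (Nat.shiftRight (Bool.rec (motive := fun _ => Nat) (Nat.add
  (Nat.land (Nat.shiftRight e 14) 16383) (Nat.pow 2 (Nat.land (Nat.shiftRight e 28) 15))) (Nat.sub
  (Nat.sub (Nat.mul 2 (Nat.pow 2 (Nat.land (Nat.shiftRight e 28) 15))) 1) (Nat.add (Nat.land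
  (Nat.shiftRight e 14) 16383) (Nat.pow 2 (Nat.land (Nat.shiftRight e 28) 15)))) (Nat.ble 2
  (Nat.land (Nat.shiftRight e 126) 3))) (Nat.sub (Nat.succ (Nat.land (Nat.shiftRight e 28) 15))
  (Nat.land (Nat.shiftRight (g (Nat.land (Nat.shiftRight e 106) 1048575)) 28) 15))) (Nat.land
  (Nat.shiftRight (g (Nat.land (Nat.shiftRight e 106) 1048575)) 14) 16383)) (Nat.beq
  (Nat.shiftRight (Nat.add (Nat.land e 16383) (Nat.mul (Nat.pow 2 (Nat.land (Nat.shiftRight e 28)
  15)) (Nat.sub 1 (Nat.shiftRight (Nat.lor (Nat.add (Nat.land (Nat.shiftRight e 32) 16383)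
  (Nat.land (Nat.land (Nat.shiftRight e 32) 16383) (Nat.land (Nat.shiftRight e 46) 16383)))
  (Nat.sub (Nat.land (Nat.shiftRight e 32) 16383) (Nat.land (Nat.land (Nat.shiftRight e 32) 16383)
  (Nat.land (Nat.shiftRight e 46) 16383)))) (Nat.land (Nat.shiftRight e 60) 15))))) (Nat.sub
  (Nat.succ (Nat.land (Nat.shiftRight e 28) 15)) (Nat.land (Nat.shiftRight (g (Nat.land
  (Nat.shiftRight e 106) 1048575)) 28) 15))) (Nat.land (g (Nat.land (Nat.shiftRight e 106)
  1048575)) 16383))) (Nat.ble (Nat.land (Nat.shiftRight (g (Nat.land (Nat.shiftRight e 106)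
  1048575)) 28) 15) (Nat.succ (Nat.land (Nat.shiftRight e 28) 15))))) (Bool.rec (motive := fun _ =>
  Bool) false (Bool.rec (motive := fun _ => Bool) false (Bool.rec (motive := fun _ => Bool) false
  (Nat.beq (Nat.shiftRight (Bool.rec (motive := fun _ => Nat) (Nat.add (Nat.land (Nat.shiftRight e
  14) 16383) (Nat.pow 2 (Nat.land (Nat.shiftRight e 28) 15))) (Nat.sub (Nat.sub (Nat.mul 2 (Nat.pow
  2 (Nat.land (Nat.shiftRight e 28) 15))) 1) (Nat.add (Nat.land (Nat.shiftRight e 14) 16383)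
  (Nat.pow 2 (Nat.land (Nat.shiftRight e 28) 15)))) (Nat.ble 2 (Nat.land (Nat.shiftRight e 126)
  3))) (Nat.sub (Nat.succ (Nat.land (Nat.shiftRight e 28) 15)) (Nat.land (Nat.shiftRight (g
  (Nat.land (Nat.shiftRight e 106) 1048575)) 60) 15))) (Nat.land (Nat.shiftRight (g (Nat.land
  (Nat.shiftRight e 106) 1048575)) 46) 16383)) (Nat.beq (Nat.shiftRight (Nat.add (Nat.land e 16383)
  (Nat.mul (Nat.pow 2 (Nat.land (Nat.shiftRight e 28) 15)) (Nat.sub 1 (Nat.shiftRight (Nat.lor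
  (Nat.add (Nat.land (Nat.shiftRight e 32) 16383) (Nat.land (Nat.land (Nat.shiftRight e 32) 16383)
  (Nat.land (Nat.shiftRight e 46) 16383))) (Nat.sub (Nat.land (Nat.shiftRight e 32) 16383)
  (Nat.land (Nat.land (Nat.shiftRight e 32) 16383) (Nat.land (Nat.shiftRight e 46) 16383))))
  (Nat.land (Nat.shiftRight e 60) 15))))) (Nat.sub (Nat.succ (Nat.land (Nat.shiftRight e 28) 15))
  (Nat.land (Nat.shiftRight (g (Nat.land (Nat.shiftRight e 106) 1048575)) 60) 15))) (Nat.land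
  (Nat.shiftRight (g (Nat.land (Nat.shiftRight e 106) 1048575)) 32) 16383))) (Nat.ble (Nat.land
  (Nat.shiftRight (g (Nat.land (Nat.shiftRight e 106) 1048575)) 60) 15) (Nat.succ (Nat.land
  (Nat.shiftRight e 28) 15)))) (Bool.rec (motive := fun _ => Bool) false (Bool.rec (motive := fun _
  => Bool) false (Nat.beq (Nat.shiftRight (Bool.rec (motive := fun _ => Nat) (Nat.land
  (Nat.shiftRight e 46) 16383) (Nat.sub (Nat.sub (Nat.pow 2 (Nat.land (Nat.shiftRight e 60) 15)) 1)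
  (Nat.land (Nat.shiftRight e 46) 16383)) (Nat.ble 2 (Nat.land (Nat.shiftRight e 126) 3))) (Nat.sub
  (Nat.land (Nat.shiftRight e 60) 15) (Nat.land (Nat.shiftRight (g (Nat.land (Nat.shiftRight e 106)
  1048575)) 28) 15))) (Nat.land (Nat.shiftRight (g (Nat.land (Nat.shiftRight e 106) 1048575)) 14)
  16383)) (Nat.beq (Nat.shiftRight (Nat.sub (Nat.lor (Nat.add (Nat.land (Nat.shiftRight e 32)
  16383) (Nat.land (Nat.land (Nat.shiftRight e 32) 16383) (Nat.land (Nat.shiftRight e 46) 16383)))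
  (Nat.sub (Nat.land (Nat.shiftRight e 32) 16383) (Nat.land (Nat.land (Nat.shiftRight e 32) 16383)
  (Nat.land (Nat.shiftRight e 46) 16383)))) (Nat.mul (Nat.pow 2 (Nat.land (Nat.shiftRight e 60)
  15)) (Nat.shiftRight (Nat.lor (Nat.add (Nat.land (Nat.shiftRight e 32) 16383) (Nat.land (Nat.land
  (Nat.shiftRight e 32) 16383) (Nat.land (Nat.shiftRight e 46) 16383))) (Nat.sub (Nat.land
  (Nat.shiftRight e 32) 16383) (Nat.land (Nat.land (Nat.shiftRight e 32) 16383) (Nat.land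
  (Nat.shiftRight e 46) 16383)))) (Nat.land (Nat.shiftRight e 60) 15)))) (Nat.sub (Nat.land
  (Nat.shiftRight e 60) 15) (Nat.land (Nat.shiftRight (g (Nat.land (Nat.shiftRight e 106) 1048575))
  28) 15))) (Nat.land (g (Nat.land (Nat.shiftRight e 106) 1048575)) 16383))) (Nat.ble (Nat.land
  (Nat.shiftRight (g (Nat.land (Nat.shiftRight e 106) 1048575)) 28) 15) (Nat.land (Nat.shiftRight e
  60) 15)))) (Nat.beq (Nat.land (Nat.land (Nat.shiftRight e 126) 3) 1) 1))) (Bool.rec (motive :=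
  fun _ => Bool) (Bool.rec (motive := fun _ => Bool) false (Bool.rec (motive := fun _ => Bool)
  false (Bool.rec (motive := fun _ => Bool) false (Nat.beq (Nat.shiftRight (Bool.rec (motive := fun
  _ => Nat) (Nat.land (Nat.shiftRight e 46) 16383) (Nat.sub (Nat.sub (Nat.pow 2 (Nat.land
  (Nat.shiftRight e 60) 15)) 1) (Nat.land (Nat.shiftRight e 46) 16383)) (Nat.ble 2 (Nat.land
  (Nat.shiftRight e 104) 3))) (Nat.sub (Nat.land (Nat.shiftRight e 60) 15) (Nat.land
  (Nat.shiftRight (g (Nat.land (Nat.shiftRight e 84) 1048575)) 60) 15))) (Nat.land (Nat.shiftRight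
  (g (Nat.land (Nat.shiftRight e 84) 1048575)) 46) 16383)) (Nat.beq (Nat.shiftRight (Nat.sub
  (Nat.lor (Nat.add (Nat.land (Nat.shiftRight e 32) 16383) (Nat.land (Nat.land (Nat.shiftRight e
  32) 16383) (Nat.sub (Nat.sub (Nat.pow 2 (Nat.land (Nat.shiftRight e 60) 15)) 1) (Nat.land
  (Nat.shiftRight e 46) 16383)))) (Nat.sub (Nat.land (Nat.shiftRight e 32) 16383) (Nat.land
  (Nat.land (Nat.shiftRight e 32) 16383) (Nat.sub (Nat.sub (Nat.pow 2 (Nat.land (Nat.shiftRight e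
  60) 15)) 1) (Nat.land (Nat.shiftRight e 46) 16383))))) (Nat.mul (Nat.pow 2 (Nat.land
  (Nat.shiftRight e 60) 15)) (Nat.shiftRight (Nat.lor (Nat.add (Nat.land (Nat.shiftRight e 32)
  16383) (Nat.land (Nat.land (Nat.shiftRight e 32) 16383) (Nat.sub (Nat.sub (Nat.pow 2 (Nat.land
  (Nat.shiftRight e 60) 15)) 1) (Nat.land (Nat.shiftRight e 46) 16383)))) (Nat.sub (Nat.land
  (Nat.shiftRight e 32) 16383) (Nat.land (Nat.land (Nat.shiftRight e 32) 16383) (Nat.sub (Nat.sub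
  (Nat.pow 2 (Nat.land (Nat.shiftRight e 60) 15)) 1) (Nat.land (Nat.shiftRight e 46) 16383)))))
  (Nat.land (Nat.shiftRight e 60) 15)))) (Nat.sub (Nat.land (Nat.shiftRight e 60) 15) (Nat.land
  (Nat.shiftRight (g (Nat.land (Nat.shiftRight e 84) 1048575)) 60) 15))) (Nat.land (Nat.shiftRight
  (g (Nat.land (Nat.shiftRight e 84) 1048575)) 32) 16383))) (Nat.ble (Nat.land (Nat.shiftRight (g
  (Nat.land (Nat.shiftRight e 84) 1048575)) 60) 15) (Nat.land (Nat.shiftRight e 60) 15))) (Bool.rec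
  (motive := fun _ => Bool) false (Bool.rec (motive := fun _ => Bool) false (Nat.beq
  (Nat.shiftRight (Bool.rec (motive := fun _ => Nat) (Nat.add (Nat.land (Nat.shiftRight e 14)
  16383) 0) (Nat.sub (Nat.sub (Nat.mul 2 (Nat.pow 2 (Nat.land (Nat.shiftRight e 28) 15))) 1)
  (Nat.add (Nat.land (Nat.shiftRight e 14) 16383) 0)) (Nat.ble 2 (Nat.land (Nat.shiftRight e 104)
  3))) (Nat.sub (Nat.succ (Nat.land (Nat.shiftRight e 28) 15)) (Nat.land (Nat.shiftRight (g
  (Nat.land (Nat.shiftRight e 84) 1048575)) 28) 15))) (Nat.land (Nat.shiftRight (g (Nat.land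
  (Nat.shiftRight e 84) 1048575)) 14) 16383)) (Nat.beq (Nat.shiftRight (Nat.add (Nat.land e 16383)
  (Nat.mul (Nat.pow 2 (Nat.land (Nat.shiftRight e 28) 15)) (Nat.sub 1 (Nat.shiftRight (Nat.lor
  (Nat.add (Nat.land (Nat.shiftRight e 32) 16383) (Nat.land (Nat.land (Nat.shiftRight e 32) 16383)
  (Nat.sub (Nat.sub (Nat.pow 2 (Nat.land (Nat.shiftRight e 60) 15)) 1) (Nat.land (Nat.shiftRight e
  46) 16383)))) (Nat.sub (Nat.land (Nat.shiftRight e 32) 16383) (Nat.land (Nat.land (Nat.shiftRight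
  e 32) 16383) (Nat.sub (Nat.sub (Nat.pow 2 (Nat.land (Nat.shiftRight e 60) 15)) 1) (Nat.land
  (Nat.shiftRight e 46) 16383))))) (Nat.land (Nat.shiftRight e 60) 15))))) (Nat.sub (Nat.succ
  (Nat.land (Nat.shiftRight e 28) 15)) (Nat.land (Nat.shiftRight (g (Nat.land (Nat.shiftRight e 84)
  1048575)) 28) 15))) (Nat.land (g (Nat.land (Nat.shiftRight e 84) 1048575)) 16383))) (Nat.ble
  (Nat.land (Nat.shiftRight (g (Nat.land (Nat.shiftRight e 84) 1048575)) 28) 15) (Nat.succ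
  (Nat.land (Nat.shiftRight e 28) 15))))) (Bool.rec (motive := fun _ => Bool) false (Bool.rec
  (motive := fun _ => Bool) false (Bool.rec (motive := fun _ => Bool) false (Nat.beq
  (Nat.shiftRight (Bool.rec (motive := fun _ => Nat) (Nat.add (Nat.land (Nat.shiftRight e 14)
  16383) 0) (Nat.sub (Nat.sub (Nat.mul 2 (Nat.pow 2 (Nat.land (Nat.shiftRight e 28) 15))) 1)
  (Nat.add (Nat.land (Nat.shiftRight e 14) 16383) 0)) (Nat.ble 2 (Nat.land (Nat.shiftRight e 104)
  3))) (Nat.sub (Nat.succ (Nat.land (Nat.shiftRight e 28) 15)) (Nat.land (Nat.shiftRight (g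
  (Nat.land (Nat.shiftRight e 84) 1048575)) 60) 15))) (Nat.land (Nat.shiftRight (g (Nat.land
  (Nat.shiftRight e 84) 1048575)) 46) 16383)) (Nat.beq (Nat.shiftRight (Nat.add (Nat.land e 16383)
  (Nat.mul (Nat.pow 2 (Nat.land (Nat.shiftRight e 28) 15)) (Nat.sub 1 (Nat.shiftRight (Nat.lor
  (Nat.add (Nat.land (Nat.shiftRight e 32) 16383) (Nat.land (Nat.land (Nat.shiftRight e 32) 16383)
  (Nat.sub (Nat.sub (Nat.pow 2 (Nat.land (Nat.shiftRight e 60) 15)) 1) (Nat.land (Nat.shiftRight e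
  46) 16383)))) (Nat.sub (Nat.land (Nat.shiftRight e 32) 16383) (Nat.land (Nat.land (Nat.shiftRight
  e 32) 16383) (Nat.sub (Nat.sub (Nat.pow 2 (Nat.land (Nat.shiftRight e 60) 15)) 1) (Nat.land
  (Nat.shiftRight e 46) 16383))))) (Nat.land (Nat.shiftRight e 60) 15))))) (Nat.sub (Nat.succ
  (Nat.land (Nat.shiftRight e 28) 15)) (Nat.land (Nat.shiftRight (g (Nat.land (Nat.shiftRight e 84)
  1048575)) 60) 15))) (Nat.land (Nat.shiftRight (g (Nat.land (Nat.shiftRight e 84) 1048575)) 32)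
  16383))) (Nat.ble (Nat.land (Nat.shiftRight (g (Nat.land (Nat.shiftRight e 84) 1048575)) 60) 15)
  (Nat.succ (Nat.land (Nat.shiftRight e 28) 15)))) (Bool.rec (motive := fun _ => Bool) false
  (Bool.rec (motive := fun _ => Bool) false (Nat.beq (Nat.shiftRight (Bool.rec (motive := fun _ =>
  Nat) (Nat.land (Nat.shiftRight e 46) 16383) (Nat.sub (Nat.sub (Nat.pow 2 (Nat.land
  (Nat.shiftRight e 60) 15)) 1) (Nat.land (Nat.shiftRight e 46) 16383)) (Nat.ble 2 (Nat.land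
  (Nat.shiftRight e 104) 3))) (Nat.sub (Nat.land (Nat.shiftRight e 60) 15) (Nat.land
  (Nat.shiftRight (g (Nat.land (Nat.shiftRight e 84) 1048575)) 28) 15))) (Nat.land (Nat.shiftRight
  (g (Nat.land (Nat.shiftRight e 84) 1048575)) 14) 16383)) (Nat.beq (Nat.shiftRight (Nat.sub
  (Nat.lor (Nat.add (Nat.land (Nat.shiftRight e 32) 16383) (Nat.land (Nat.land (Nat.shiftRight e
  32) 16383) (Nat.sub (Nat.sub (Nat.pow 2 (Nat.land (Nat.shiftRight e 60) 15)) 1) (Nat.land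
  (Nat.shiftRight e 46) 16383)))) (Nat.sub (Nat.land (Nat.shiftRight e 32) 16383) (Nat.land
  (Nat.land (Nat.shiftRight e 32) 16383) (Nat.sub (Nat.sub (Nat.pow 2 (Nat.land (Nat.shiftRight e
  60) 15)) 1) (Nat.land (Nat.shiftRight e 46) 16383))))) (Nat.mul (Nat.pow 2 (Nat.land
  (Nat.shiftRight e 60) 15)) (Nat.shiftRight (Nat.lor (Nat.add (Nat.land (Nat.shiftRight e 32)
  16383) (Nat.land (Nat.land (Nat.shiftRight e 32) 16383) (Nat.sub (Nat.sub (Nat.pow 2 (Nat.land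
  (Nat.shiftRight e 60) 15)) 1) (Nat.land (Nat.shiftRight e 46) 16383)))) (Nat.sub (Nat.land
  (Nat.shiftRight e 32) 16383) (Nat.land (Nat.land (Nat.shiftRight e 32) 16383) (Nat.sub (Nat.sub
  (Nat.pow 2 (Nat.land (Nat.shiftRight e 60) 15)) 1) (Nat.land (Nat.shiftRight e 46) 16383)))))
  (Nat.land (Nat.shiftRight e 60) 15)))) (Nat.sub (Nat.land (Nat.shiftRight e 60) 15) (Nat.land
  (Nat.shiftRight (g (Nat.land (Nat.shiftRight e 84) 1048575)) 28) 15))) (Nat.land (g (Nat.land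
  (Nat.shiftRight e 84) 1048575)) 16383))) (Nat.ble (Nat.land (Nat.shiftRight (g (Nat.land
  (Nat.shiftRight e 84) 1048575)) 28) 15) (Nat.land (Nat.shiftRight e 60) 15)))) (Nat.beq (Nat.land
  (Nat.land (Nat.shiftRight e 104) 3) 1) 1))) (Bool.rec (motive := fun _ => Bool) true cs (Nat.ble
  2 (Nat.land (Nat.shiftRight e 126) 3)))) (Bool.rec (motive := fun _ => Bool) true cs (Nat.ble 2
  (Nat.land (Nat.shiftRight e 104) 3))))

theorem chkF_eq (cs : Bool) (N Q ρ a1 a2 : Nat) (g : Nat → Nat) (e : Nat) :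
    chkF cs N Q ρ a1 a2 g e = chkE cs N Q ρ a1 a2 g e := rfl

end Pool.Agent.ad013a
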