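import Pool.Agent.H.MP_ad013a_pr.h63.K

/-!
# From the checks of blocks to the check of all entries
-/

namespace Pool.Agent.ad013a

theorem lp_step {A : (Nat → Bool) → Nat → Bool} (m : Nat)
    (hA : ∀ c s, A c s = true → ∀ j, j < m → c (s + j) = true) (c : Nat → Bool) (s : Nat)
    (h : (Bool.rec (motive := fun _ => Bool) false (A c (Nat.add s m)) (A c s) : Bool) = true)
    (j : Nat) (hj : j < 2 * m) : c (s + j) = true := by
  have h1 : A c s = true := by
    cases h' : A c s
    · rw [h'] at h; exact h
    · rfl
  rw [h1] at h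
  have h2 : A c (s + m) = true := h
  rcases Nat.lt_or_ge j m with hh | hh
  · exact hA c s h1 j hh
  · have := hA c (s + m) h2 (j - m) (by omega)
    rwa [show s + m + (j - m) = s + j by omega] at this

theorem lp7_all (c : Nat → Bool) (s : Nat) (h : lp7 c s = true) (j : Nat) (hj : j < 128) :
    c (s + j) = true := by
  have b0 : ∀ (c : Nat → Bool) (s : Nat), (fun c s => c s : (Nat → Bool) → Nat → Bool) c s = true →
      ∀ j, j < 1 → c (s + j) = true := by
    intro c s h j hj
    obtain rfl : j = 0 := by omega
    exact h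
  have b1 := lp_step (A := fun c s => c s) 1 b0
  have b2 := lp_step (A := lp1) 2 b1
  have b3 := lp_step (A := lp2) 4 b2
  have b4 := lp_step (A := lp3) 8 b3
  have b5 := lp_step (A := lp4) 16 b4
  have b6 := lp_step (A := lp5) 32 b5
  have b7 := lp_step (A := lp6) 64 b6
  exact b7 c s h j hj

/-- all entries of the number `n` pass the check -/
def Pr (chk : Nat → Bool) (n : Nat) : Prop := ∀ j : Nat, chk (ent n (Nat.land j 1023)) = true

theorem leaf_all {chk : Nat → Bool} {n : Nat}
    (h0 : lp7 (fun s => chk (ent n s)) 0 = true) (h1 : lp7 (fun s => chk (ent n s)) 128 = true)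
    (h2 : lp7 (fun s => chk (ent n s)) 256 = true) (h3 : lp7 (fun s => chk (ent n s)) 384 = true)
    (h4 : lp7 (fun s => chk (ent n s)) 512 = true) (h5 : lp7 (fun s => chk (ent n s)) 640 = true)
    (h6 : lp7 (fun s => chk (ent n s)) 768 = true) (h7 : lp7 (fun s => chk (ent n s)) 896 = true) :
    Pr chk n := by
  intro j
  have hj : Nat.land j 1023 ≤ 1023 := Nat.and_le_right
  generalize Nat.land j 1023 = i at hj
  have key : ∀ k, lp7 (fun s => chk (ent n s)) k = true → k ≤ i → i < k + 128 →
      chk (ent n i) = true := by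
    intro k hk h1 h2
    have := lp7_all _ _ hk (i - k) (by omega)
    rwa [show k + (i - k) = i by omega] at this
  rcases Nat.lt_or_ge i 128 with a | a
  · exact key _ h0 (by omega) (by omega)
  rcases Nat.lt_or_ge i 256 with b | b
  · exact key _ h1 (by omega) (by omega)
  rcases Nat.lt_or_ge i 384 with b | b
  · exact key _ h2 (by omega) (by omega)
  rcases Nat.lt_or_ge i 512 with b | b
  · exact key _ h3 (by omega) (by omega)
  rcases Nat.lt_or_ge i 640 with b | b
  · exact key _ h4 (by omega) (by omega)
  rcases Nat.lt_or_ge i 768 with b | b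
  · exact key _ h5 (by omega) (by omega)
  rcases Nat.lt_or_ge i 896 with b | b
  · exact key _ h6 (by omega) (by omega)
  · exact key _ h7 (by omega) (by omega)

theorem brec_all (P : Nat → Prop) {a b : Nat} {c : Bool} (ha : P a) (hb : P b) :
    P (Bool.rec (motive := fun _ => Nat) a b c) := by
  cases c
  · exact ha
  · exact hb

end Pool.Agent.ad013a
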