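import Pool.Agent.H.MP_ad013a_pr.h63.Adapt

/-!
# The lower bound theorem
-/

namespace Pool.Agent.ad013a

open Finset Filter Topology

theorem Cmp_nil : Cmp [] [] [] [] 0 := by
  constructor <;> simp [SInv]

theorem lower_quad {p r M ρ v0 : ℝ} (h0 : 0 ≤ p) (h1 : p ≤ 1)
    {S : List Site → List Site → ℝ → Prop} (hB : Bell p r S)
    (hM : ∀ sx sy v, S sx sy v → v ≤ M) (hS : S [] [] v0) (hρ0 : 0 ≤ ρ) (hρ : ρ < r) :
    ∃ ε c : ℝ, 0 < ε ∧ ∀ a b : ℕ,
      ρ * ((a : ℝ) + b) - ε * ((a : ℝ) - b) ^ 2 - c ≤ G p [] [] a b := by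
  obtain ⟨T, hT⟩ := exists_nat_gt (max 1 (2 * (M - v0) / (r - ρ)))
  have hT1 : (1 : ℝ) < T := lt_of_le_of_lt (le_max_left _ _) hT
  have hT2 : 2 * (M - v0) / (r - ρ) < T := lt_of_le_of_lt (le_max_right _ _) hT
  have hd : 0 < r - ρ := by linarith
  have hT3 : 2 * (M - v0) < T * (r - ρ) := by rwa [div_lt_iff₀ hd] at hT2
  have hT0 : (0 : ℝ) < T := by linarith
  have hTn : 1 ≤ T := by
    have : (1 : ℝ) < (T : ℝ) := hT1
    exact_mod_cast this.le
  set ε : ℝ := (r - ρ) / (2 * T) with hε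
  have hεp : 0 < ε := by positivity
  have hεT : ε * (T : ℝ) ^ 2 = (r - ρ) * T / 2 := by
    rw [hε]; field_simp
  set c : ℝ := ρ ^ 2 / (4 * ε) + 2 * ρ * T with hc
  refine ⟨ε, c, hεp, ?_⟩
  -- boundary
  have hbd : ∀ a b : ℕ, (a < T ∨ b < T) →
      ρ * ((a : ℝ) + b) - ε * ((a : ℝ) - b) ^ 2 - c ≤ 0 := by
    intro a b hab
    have q : ∀ d : ℝ, ρ * d - ε * d ^ 2 ≤ ρ ^ 2 / (4 * ε) := by
      intro d
      rw [le_div_iff₀ (by positivity)]
      nlinarith [sq_nonneg (2 * ε * d - ρ)]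
    rcases hab with h | h
    · have h' : (a : ℝ) < T := by exact_mod_cast h
      have := q ((b : ℝ) - a)
      have e : ((a : ℝ) - b) ^ 2 = ((b : ℝ) - a) ^ 2 := by ring
      rw [e, hc]
      nlinarith
    · have h' : (b : ℝ) < T := by exact_mod_cast h
      have := q ((a : ℝ) - b)
      rw [hc]
      nlinarith
  have main : ∀ N : ℕ, ∀ a b : ℕ, a + b < N →
      ρ * ((a : ℝ) + b) - ε * ((a : ℝ) - b) ^ 2 - c ≤ G p [] [] a b := by
    intro N
    induction N with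
    | zero => intro a b h; omega
    | succ N ih =>
      intro a b hab
      by_cases hh : a < T ∨ b < T
      · exact (hbd a b hh).trans (G_nonneg h0 h1 _ _ _ _)
      · push Not at hh
        obtain ⟨D, -, hD⟩ := claim h0 h1 hεp.le hB hM N ih T _ _ _ hS
        have i1 := hD [] [] 0 Cmp_nil a b hh.1 hh.2 (by omega)
        have i2 := hD [] [] 0 Cmp_nil b a hh.2 hh.1 (by omega)
        rw [G_comm] at i2
        simp only [Int.cast_zero] at i1 i2
        have e : ((b : ℝ) - a) ^ 2 = ((a : ℝ) - b) ^ 2 := by ring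
        rw [e] at i2
        rw [hεT] at i1 i2
        nlinarith
  intro a b
  exact main (a + b + 1) a b (by omega)

theorem lower_EL {p r M ρ v0 : ℝ} (h0 : 0 ≤ p) (h1 : p ≤ 1)
    {S : List Site → List Site → ℝ → Prop} (hB : Bell p r S)
    (hM : ∀ sx sy v, S sx sy v → v ≤ M) (hS : S [] [] v0) (hρ0 : 0 ≤ ρ) (hρ : ρ < r) :
    ∃ c : ℝ, ∀ n : ℕ, 2 * ρ * n - c ≤ EL p n := by
  obtain ⟨ε, c, -, h⟩ := lower_quad h0 h1 hB hM hS hρ0 hρ
  refine ⟨c, fun n => ?_⟩
  have := h n n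
  rw [EL_eq_G]
  simp only [sub_self] at this
  linarith

theorem EL_add {p : ℝ} (h0 : 0 ≤ p) (h1 : p ≤ 1) (m n : ℕ) :
    EL p m + EL p n ≤ EL p (m + n) := by
  rw [EL_eq_G, EL_eq_G, EL_eq_G]
  exact G_add h0 h1 _ _ _ _

theorem EL_le {p : ℝ} (h0 : 0 ≤ p) (h1 : p ≤ 1) (n : ℕ) : EL p n ≤ n := by
  rw [EL_eq]
  have h : E1 p n (fun x => E1 p n (fun y => (LCS x y : ℝ))) ≤ E1 p n (fun _ => (n : ℝ)) := by
    refine E1_mono h0 h1 _ (fun x hx => ?_)
    have h' : E1 p n (fun y => (LCS x y : ℝ)) ≤ E1 p n (fun _ => (n : ℝ)) := by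
      refine E1_mono h0 h1 _ (fun y _ => ?_)
      rw [← hx]
      exact_mod_cast LCS_le_length x y
    rwa [E1_const] at h'
  rwa [E1_const] at h

/-- existence of the Chvatal-Sankoff constant -/
theorem exists_lim {p : ℝ} (h0 : 0 ≤ p) (h1 : p ≤ 1) :
    ∃ C : ℝ, Tendsto (fun n : ℕ => EL p n / n) atTop (𝓝 C) := by
  have hs : Subadditive (fun n => -EL p n) := by
    intro m n
    have := EL_add h0 h1 m n
    simp only
    linarith
  have hb : BddBelow (Set.range fun n : ℕ => (fun n => -EL p n) n / (n : ℝ)) := by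
    refine ⟨-1, ?_⟩
    rintro _ ⟨n, rfl⟩
    simp only
    rcases Nat.eq_zero_or_pos n with h | h
    · subst h; simp
    · have h' : (0 : ℝ) < n := by exact_mod_cast h
      rw [le_div_iff₀ h']
      have := EL_le h0 h1 n
      linarith
  refine ⟨-hs.lim, ?_⟩
  have := (hs.tendsto_lim hb).neg
  refine this.congr (fun n => ?_)
  ring

theorem lim_ge {p r M v0 C : ℝ} (h0 : 0 ≤ p) (h1 : p ≤ 1)
    {S : List Site → List Site → ℝ → Prop} (hB : Bell p r S)
    (hM : ∀ sx sy v, S sx sy v → v ≤ M) (hS : S [] [] v0)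
    (hC : Tendsto (fun n : ℕ => EL p n / n) atTop (𝓝 C)) (hr : 0 < r) : 2 * r ≤ C := by
  have key : ∀ ρ : ℝ, 0 ≤ ρ → ρ < r → 2 * ρ ≤ C := by
    intro ρ hρ0 hρ
    obtain ⟨c, hc⟩ := lower_EL h0 h1 hB hM hS hρ0 hρ
    have t1 : Tendsto (fun n : ℕ => 2 * ρ - c / n) atTop (𝓝 (2 * ρ - 0)) :=
      tendsto_const_nhds.sub (tendsto_const_nhds.div_atTop tendsto_natCast_atTop_atTop)
    rw [sub_zero] at t1
    refine le_of_tendsto_of_tendsto t1 hC ?_
    filter_upwards [eventually_gt_atTop 0] with n hn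
    have h' : (0 : ℝ) < n := by exact_mod_cast hn
    rw [le_div_iff₀ h']
    have := hc n
    field_simp
    linarith
  by_contra hcon
  push Not at hcon
  rcases le_or_gt C 0 with h | h
  · have := key (r / 2) (by linarith) (by linarith)
    linarith
  · have := key ((C / 2 + r) / 2) (by linarith) (by linarith)
    linarith

end Pool.Agent.ad013a
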