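import Pool.Agent.H.MP_ad013a_pr.h63.Enc
import Pool.Agent.H.MP_ad013a_pr.h63.Lower

/-!
# Soundness of the checker
-/

namespace Pool.Agent.ad013a

theorem brec_and {a b : Bool} :
    (Bool.rec (motive := fun _ => Bool) false b a : Bool) = true ↔ a = true ∧ b = true := by
  cases a <;> simp

theorem brec_imp {a b : Bool} :
    (Bool.rec (motive := fun _ => Bool) true b a : Bool) = true ↔ (a = true → b = true) := by
  cases a <;> simp

theorem chkS_iff {h l n h' l' n' : ℕ} : chkS h l n h' l' n' = true ↔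
    n' ≤ n ∧ h >>> (n - n') = h' ∧ l >>> (n - n') = l' := by
  unfold chkS
  rw [brec_and, Nat.ble_eq]
  refine and_congr_right (fun _ => ?_)
  change (Bool.rec (motive := fun _ => Bool) false (Nat.beq (l >>> (n - n')) l')
    (Nat.beq (h >>> (n - n')) h') : Bool) = true ↔ _
  rw [brec_and, Nat.beq_eq, Nat.beq_eq]

/-- the entry `e` describes the sides `x`, `y` (near end first) -/
def Enc (e : ℕ) (x y : List Site) : Prop :=
  (fhx e = eh x.reverse ∧ flx e = el x.reverse ∧ fnx e = x.length) ∧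
  (fhy e = eh y.reverse ∧ fly e = el y.reverse ∧ fny e = y.length)

/-- complement if `c` -/
def cf (c : Bool) (x : List Site) : List Site := bif c then flp x else x

theorem cf_length (c : Bool) (x : List Site) : (cf c x).length = x.length := by
  cases c <;> simp [cf, flp_length]

theorem cf_reverse (c : Bool) (x : List Site) : (cf c x.reverse) = (cf c x).reverse := by
  cases c <;> simp [cf, flp_reverse]

theorem eh_cf (c : Bool) (x : List Site) : eh (cf c x) = eh x := by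
  cases c <;> simp [cf, eh_flp]

theorem el_cf (c : Bool) (x : List Site) : el (cf c x) =
    (Bool.rec (motive := fun _ => ℕ) (el x) (Nat.sub (Nat.sub (2 ^ x.length) 1) (el x)) c : ℕ) := by
  cases c
  · rfl
  · exact el_flp x

theorem chkS_sound {x : List Site} {n T c h' l' n'} (hn : n = x.length) (hT : T = 2 ^ x.length)
    (H : chkS (eh x.reverse) (Bool.rec (motive := fun _ => ℕ) (el x.reverse)
      (Nat.sub (Nat.sub T 1) (el x.reverse)) c : ℕ) n h' l' n' = true) :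
    ∃ y : List Site, y <+: cf c x ∧ h' = eh y.reverse ∧ l' = el y.reverse ∧ n' = y.length := by
  subst hn hT
  have e : (Bool.rec (motive := fun _ => ℕ) (el x.reverse)
      (Nat.sub (Nat.sub (2 ^ x.length) 1) (el x.reverse)) c : ℕ) = el (cf c x).reverse := by
    rw [← cf_reverse, el_cf, List.length_reverse]
  have e' : eh x.reverse = eh (cf c x).reverse := by rw [← cf_reverse, eh_cf]
  rw [e, e', chkS_iff] at H
  obtain ⟨h1, h2, h3⟩ := H
  refine ⟨((cf c x).reverse.drop (x.length - n')).reverse, ?_, ?_, ?_, ?_⟩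
  · have := List.drop_suffix (x.length - n') (cf c x).reverse
    rw [← List.reverse_prefix] at this
    rwa [List.reverse_reverse] at this
  · rw [List.reverse_reverse, eh_drop, h2]
  · rw [List.reverse_reverse, el_drop, h3]
  · rw [List.length_reverse, List.length_drop, List.length_reverse, cf_length]
    omega

theorem chkA_sound {c s : Bool} {x y : List Site} {h1 l1 n1 T1 h2 l2 n2 T2 t : ℕ}
    (a1 : h1 = eh x.reverse) (b1 : l1 = el x.reverse) (m1 : n1 = x.length)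
    (t1 : T1 = 2 ^ x.length)
    (a2 : h2 = eh y.reverse) (b2 : l2 = el y.reverse) (m2 : n2 = y.length)
    (t2 : T2 = 2 ^ y.length)
    (H : chkA c s h1 l1 n1 T1 h2 l2 n2 T2 t = true) :
    ∃ tx ty, Enc t tx ty ∧ ((tx <+: cf c x ∧ ty <+: cf c y) ∨ (tx <+: cf c y ∧ ty <+: cf c x)) := by
  subst a1 b1 a2 b2
  unfold chkA at H
  cases s with
  | false =>
    have H' := brec_and.1 H
    obtain ⟨tx, p1, q1, r1, s1⟩ := chkS_sound m1 t1 H'.1
    obtain ⟨ty, p2, q2, r2, s2⟩ := chkS_sound m2 t2 H'.2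
    exact ⟨tx, ty, ⟨⟨q1, r1, s1⟩, ⟨q2, r2, s2⟩⟩, Or.inl ⟨p1, p2⟩⟩
  | true =>
    have H' := brec_and.1 H
    obtain ⟨tx, p1, q1, r1, s1⟩ := chkS_sound m2 t2 H'.1
    obtain ⟨ty, p2, q2, r2, s2⟩ := chkS_sound m1 t1 H'.2
    exact ⟨tx, ty, ⟨⟨q1, r1, s1⟩, ⟨q2, r2, s2⟩⟩, Or.inr ⟨p1, p2⟩⟩

theorem car_eq (a : Bool) (y : List Site) :
    car (eh y.reverse) (em a y.reverse) =
      eh (ny a y).reverse + 2 ^ y.length * (pass a y).2.toNat := by
  have := carry a y.reverse false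
  rw [ny, pass_eq, List.reverse_reverse]
  rw [List.length_reverse] at this
  rw [← this]
  rfl

theorem ny_length (a : Bool) (y : List Site) : (ny a y).length = y.length := by
  rw [ny, pass_eq, List.length_reverse, passF_length, List.length_reverse]

theorem car_div (a : Bool) (y : List Site) :
    Nat.shiftRight (car (eh y.reverse) (em a y.reverse)) y.length = (pass a y).2.toNat := by
  change (car (eh y.reverse) (em a y.reverse)) >>> y.length = _
  rw [Nat.shiftRight_eq_div_pow, car_eq, Nat.add_mul_div_left _ _ (by positivity)]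
  have h := eh_lt (ny a y).reverse
  rw [List.length_reverse, ny_length] at h
  rw [Nat.div_eq_of_lt h, zero_add]

theorem chkL_sound {c s a : Bool} {x y : List Site} {b hx lx nx' TX ly ny' TY w r t : ℕ}
    (h1 : hx = eh x.reverse) (h2 : lx = el x.reverse) (h3 : nx' = x.length)
    (h4 : TX = 2 ^ x.length) (h6 : ly = el y.reverse) (h7 : ny' = y.length)
    (h8 : TY = 2 ^ y.length) (hb : b = 2 ^ x.length * a.toNat)
    (hw : w = car (eh y.reverse) (em a y.reverse)) (hr : r = (pass a y).2.toNat)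
    (H : chkL c s b hx lx nx' TX ly ny' TY w r t = true) :
    ∃ tx ty, Enc t tx ty ∧
      ((tx <+: cf c (nx a x y) ∧ ty <+: cf c (ny a y)) ∨
       (tx <+: cf c (ny a y) ∧ ty <+: cf c (nx a x y))) := by
  unfold chkL at H
  refine chkA_sound ?_ ?_ ?_ ?_ ?_ ?_ ?_ ?_ H
  · rw [nx, List.reverse_cons, eh_append, List.length_reverse, h1, h4, hr]
    change _ + _ * (1 - _) = _
    cases (pass a y).2 <;> simp
  · rw [nx, List.reverse_cons, el_append, List.length_reverse, h2, hb]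
    rfl
  · rw [nx, List.length_cons, h3]
  · rw [nx, List.length_cons, h4, pow_succ]
    exact mul_comm _ _
  · change w - TY * r = _
    rw [hw, car_eq, h8, hr, Nat.add_sub_cancel]
  · rw [h6]
    have key : ∀ (f : List Site) (v : Bool), el (passF a v f).1 = el f := by
      intro f
      induction f with
      | nil => intro v; rfl
      | cons z f ih =>
        intro v
        rw [passF, el, el, ih]
        congr 1
        unfold stp
        split <;> split <;> rfl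
    rw [ny, pass_eq, List.reverse_reverse, key]
  · rw [ny_length, h7]
  · rw [ny_length, h8]

/-- the set of triples given by a table -/
def Sd (g : ℕ → ℕ) (Q : ℝ) (x y : List Site) (v : ℝ) : Prop :=
  ∃ i, Enc (g i) x y ∧ v = (fv (g i) : ℝ) / Q

theorem chkI_iff {N Q ρ a V r0 r1 V0 V1 : ℕ} : chkI N Q ρ a V r0 r1 V0 V1 = true ↔
    N * (V + ρ) ≤ (N - a) * (V0 + r0 * Q) + a * (V1 + r1 * Q) := by
  unfold chkI
  rw [Nat.ble_eq]
  rfl

theorem chkI_real {N Q ρ a V r0 r1 V0 V1 : ℕ} (hN : 0 < N) (hQ : 0 < Q) (ha : a ≤ N)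
    (H : chkI N Q ρ a V r0 r1 V0 V1 = true) :
    (V : ℝ) / Q + (ρ : ℝ) / Q ≤ (1 - (a : ℝ) / N) * ((r0 : ℝ) + (V0 : ℝ) / Q) +
      (a : ℝ) / N * ((r1 : ℝ) + (V1 : ℝ) / Q) := by
  rw [chkI_iff] at H
  have H' : (N : ℝ) * (V + ρ) ≤ (N - a) * (V0 + r0 * Q) + a * (V1 + r1 * Q) := by
    have := (Nat.cast_le (α := ℝ)).2 H
    push_cast [Nat.cast_sub ha] at this
    exact this
  have hN' : (0 : ℝ) < N := by exact_mod_cast hN
  have hQ' : (0 : ℝ) < Q := by exact_mod_cast hQ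
  have e1 : (V : ℝ) / Q + (ρ : ℝ) / Q = (N : ℝ) * (V + ρ) / (N * Q) := by field_simp
  have e2 : (1 - (a : ℝ) / N) * ((r0 : ℝ) + (V0 : ℝ) / Q) +
      (a : ℝ) / N * ((r1 : ℝ) + (V1 : ℝ) / Q) =
      ((N - a) * (V0 + r0 * Q) + a * (V1 + r1 * Q)) / (N * Q) := by
    field_simp
    ring
  rw [e1, e2]
  exact div_le_div_of_nonneg_right H' (by positivity)

theorem chkE_sound {cs : Bool} {N Q ρ a1 a2 : ℕ} {g : ℕ → ℕ} {e : ℕ} {x y : List Site}
    (hN : 0 < N) (hQ : 0 < Q) (ha1 : a1 ≤ N) (ha2 : a2 ≤ N)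
    (hE : Enc e x y) (H : chkE cs N Q ρ a1 a2 g e = true) :
    ∃ (i : Bool → ℕ), (∀ a, ∃ c : Bool, (c = true → cs = true) ∧ ∃ tx ty, Enc (g (i a)) tx ty ∧
      ((tx <+: cf c (nx a x y) ∧ ty <+: cf c (ny a y)) ∨
       (tx <+: cf c (ny a y) ∧ ty <+: cf c (nx a x y)))) ∧
      ((fv e : ℝ) / Q + (ρ : ℝ) / Q ≤
        (1 - (a1 : ℝ) / N) * (((pass false y).2.toNat : ℝ) + (fv (g (i false)) : ℝ) / Q) +
        (a1 : ℝ) / N * (((pass true y).2.toNat : ℝ) + (fv (g (i true)) : ℝ) / Q)) ∧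
      ((fv e : ℝ) / Q + (ρ : ℝ) / Q ≤
        (1 - (a2 : ℝ) / N) * (((pass false y).2.toNat : ℝ) + (fv (g (i false)) : ℝ) / Q) +
        (a2 : ℝ) / N * (((pass true y).2.toNat : ℝ) + (fv (g (i true)) : ℝ) / Q)) := by
  obtain ⟨⟨h1, h2, h3⟩, ⟨h4, h5, h6⟩⟩ := hE
  have w0 : car (fhy e) (Nat.sub (Nat.sub (Nat.pow 2 (fny e)) 1) (fly e)) =
      car (eh y.reverse) (em false y.reverse) := by
    rw [em_false, List.length_reverse, h4, h5, h6]; rfl
  have w1 : car (fhy e) (fly e) = car (eh y.reverse) (em true y.reverse) := by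
    rw [em_true, h4, h5]
  have r0 : Nat.shiftRight (car (fhy e) (Nat.sub (Nat.sub (Nat.pow 2 (fny e)) 1) (fly e))) (fny e)
      = (pass false y).2.toNat := by
    rw [w0, h6, car_div]
  have r1 : Nat.shiftRight (car (fhy e) (fly e)) (fny e) = (pass true y).2.toNat := by
    rw [w1, h6, car_div]
  unfold chkE at H
  obtain ⟨H1, H⟩ := brec_and.1 H
  obtain ⟨H2, H⟩ := brec_and.1 H
  obtain ⟨H3, H⟩ := brec_and.1 H
  obtain ⟨H4, H⟩ := brec_and.1 H
  obtain ⟨H5, H6⟩ := brec_and.1 H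
  rw [brec_imp] at H1 H2
  have K0 := chkL_sound (a := false) h1 h2 h3 (by rw [h3]; rfl) h5 h6 (by rw [h6]; rfl)
    (by simp) w0 r0 H3
  have K1 := chkL_sound (a := true) h1 h2 h3 (by rw [h3]; rfl) h5 h6 (by rw [h6]; rfl)
    (by rw [h3]; simp) w1 r1 H4
  have I1 := chkI_real hN hQ ha1 H5
  have I2 := chkI_real hN hQ ha2 H6
  rw [r0, r1] at I1 I2
  refine ⟨fun a => bif a then Nat.land (Nat.shiftRight e 106) 1048575
    else Nat.land (Nat.shiftRight e 84) 1048575, ?_, I1, I2⟩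
  intro a
  cases a
  · exact ⟨_, H1, K0⟩
  · exact ⟨_, H2, K1⟩

theorem bell_of_chk {cs : Bool} {N Q ρ a1 a2 : ℕ} {g : ℕ → ℕ} (hN : 0 < N) (hQ : 0 < Q)
    (ha1 : a1 ≤ N) (ha2 : a2 ≤ N) (hchk : ∀ i, chkE cs N Q ρ a1 a2 g (g i) = true) {p : ℝ}
    (hp1 : (a1 : ℝ) / N ≤ p) (hp2 : p ≤ (a2 : ℝ) / N) (hcs : cs = true → p = 1 / 2) :
    Bell p ((ρ : ℝ) / Q) (Sd g Q) := by
  intro x y v hS
  obtain ⟨i, hE, rfl⟩ := hS
  obtain ⟨j, hj, I1, I2⟩ := chkE_sound hN hQ ha1 ha2 hE (hchk i)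
  refine ⟨fun a => (fv (g (j a)) : ℝ) / Q, ?_, ?_⟩
  · intro a
    obtain ⟨c, hc, tx, ty, hT, hb⟩ := hj a
    refine ⟨tx, ty, ⟨j a, hT, rfl⟩, c, fun h => hcs (hc h), ?_⟩
    exact hb
  · -- linear in `p`
    have lin : ∀ (A B C q1 q2 : ℝ), q1 ≤ p → p ≤ q2 → C ≤ (1 - q1) * A + q1 * B →
        C ≤ (1 - q2) * A + q2 * B → C ≤ (1 - p) * A + p * B := by
      intro A B C q1 q2 h1 h2 k1 k2
      rcases le_total A B with h | h
      · nlinarith
      · nlinarith
    exact lin _ _ _ _ _ hp1 hp2 I1 I2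

theorem fv_le (e : ℕ) : fv e ≤ 1048575 := Nat.and_le_right

theorem lim_ge_of_chk {cs : Bool} {N Q ρ a1 a2 : ℕ} {g : ℕ → ℕ} (hN : 0 < N) (hQ : 0 < Q)
    (hρ : 0 < ρ) (ha1 : a1 ≤ N) (ha2 : a2 ≤ N)
    (hchk : ∀ i, chkE cs N Q ρ a1 a2 g (g i) = true)
    (h0 : fhx (g 0) = 0 ∧ flx (g 0) = 0 ∧ fnx (g 0) = 0 ∧
      fhy (g 0) = 0 ∧ fly (g 0) = 0 ∧ fny (g 0) = 0) {p C : ℝ}
    (hp1 : (a1 : ℝ) / N ≤ p) (hp2 : p ≤ (a2 : ℝ) / N) (hcs : cs = true → p = 1 / 2)
    (hC : Filter.Tendsto (fun n : ℕ => EL p n / n) Filter.atTop (nhds C)) :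
    2 * ((ρ : ℝ) / Q) ≤ C := by
  have hN' : (0 : ℝ) < N := by exact_mod_cast hN
  have hQ' : (0 : ℝ) < Q := by exact_mod_cast hQ
  have hρ' : (0 : ℝ) < ρ := by exact_mod_cast hρ
  have p0 : 0 ≤ p := le_trans (by positivity) hp1
  have p1 : p ≤ 1 := by
    refine le_trans hp2 ?_
    rw [div_le_one hN']
    exact_mod_cast ha2
  have hB := bell_of_chk hN hQ ha1 ha2 hchk hp1 hp2 hcs
  refine lim_ge p0 p1 hB (M := 1048575 / Q) ?_ (v0 := (fv (g 0) : ℝ) / Q) ?_ hC (by positivity)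
  · rintro x y v ⟨i, -, rfl⟩
    have : (fv (g i) : ℝ) ≤ 1048575 := by exact_mod_cast fv_le (g i)
    exact div_le_div_of_nonneg_right this hQ'.le
  · refine ⟨0, ?_, rfl⟩
    obtain ⟨q1, q2, q3, q4, q5, q6⟩ := h0
    exact ⟨⟨q1, q2, q3⟩, ⟨q4, q5, q6⟩⟩

end Pool.Agent.ad013a
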