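import Pool.Agent.H.MP_ad013a_pr.h63.Core

/-!
# Exchange of the two letters
-/

namespace Pool.Agent.ad013a

theorem E1_not (p : ℝ) (n : ℕ) (f : List Bool → ℝ) :
    E1 (1 - p) n (fun w => f (w.map not)) = E1 p n f := by
  induction n generalizing f with
  | zero => rfl
  | succ n ih =>
    simp only [E1, List.map_cons, Bool.not_false, Bool.not_true]
    rw [ih (fun w => f (true :: w)), ih (fun w => f (false :: w))]
    ring

theorem EL_symm (p : ℝ) (n : ℕ) : EL (1 - p) n = EL p n := by
  rw [EL_eq, EL_eq, ← E1_not p n (fun x => E1 p n (fun y => (LCS x y : ℝ)))]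
  refine E1_congr _ _ (fun x _ => ?_)
  rw [← E1_not p n (fun y => (LCS (x.map not) y : ℝ))]
  refine E1_congr _ _ (fun y _ => ?_)
  rw [LCS_map]

end Pool.Agent.ad013a
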